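import Pool.Agent.Lib_helper9.FPP.Blocks

set_option autoImplicit false

open MeasureTheory ProbabilityTheory
open scoped BigOperators

namespace Pool.Agent.Lib_helper9.FPP

/-! ### argmin with tie-breaking -/

lemma exists_argmin {ι : Type*} [Finite ι] [Nonempty ι] (f : ι → ℝ) (ord : ι → ℕ) :
    ∃ g, (∀ g', f g ≤ f g') ∧ ∀ g', f g' ≤ f g → ord g ≤ ord g' := by
  have := Fintype.ofFinite ι
  obtain ⟨g, -, hg⟩ := Finset.exists_min_image (Finset.univ : Finset ι)
    (fun g => toLex (f g, ord g)) Finset.univ_nonempty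
  refine ⟨g, fun g' => ?_, fun g' h => ?_⟩
  · have := hg g' (Finset.mem_univ _)
    rw [Prod.Lex.toLex_le_toLex] at this
    rcases this with h | h
    · exact h.le
    · exact h.1.le
  · have := hg g' (Finset.mem_univ _)
    rw [Prod.Lex.toLex_le_toLex] at this
    rcases this with h' | h'
    · exact absurd h (not_le.2 h')
    · exact h'.2

/-! ### coarse data -/

noncomputable def cgp (n u : ℕ) (hu : 1 ≤ u) (x : Fin 2 → ℤ) (l : List (Step 2)) : ℕ → Fin 2 → ℤ :=
  (coarse n x l u hu).choose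

noncomputable def cgm (n u : ℕ) (hu : 1 ≤ u) (x : Fin 2 → ℤ) (l : List (Step 2)) : ℕ :=
  (coarse n x l u hu).choose_spec.choose

lemma cg_spec (n u : ℕ) (hu : 1 ≤ u) (x : Fin 2 → ℤ) (l : List (Step 2)) :
    cgp n u hu x l 0 = x ∧ Lip u (cgp n u hu x l) ∧
      (∀ j, cgm n u hu x l ≤ j → cgp n u hu x l j = cgp n u hu x l (cgm n u hu x l)) ∧
      (∀ e ∈ walkEdges n x l, ∃ j ≤ cgm n u hu x l, ∃ y : Fin 2 → ℤ,
        (∀ α, |y α - cgp n u hu x l j α| ≤ (u : ℤ)) ∧
        ∃ i : Fin 2, e = ((fun α => ((y α : ℤ) : ZMod n)), i)) ∧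
      (∀ i, ∃ j ≤ cgm n u hu x l, ∀ α, |pos x l i α - cgp n u hu x l j α| ≤ (u : ℤ)) ∧
      (u = Nat.sqrt n → SAW x l → ∀ (b c : ℝ) (t : TEdge 2 n → ℝ), 0 ≤ b → 0 ≤ c →
        (∀ e, 0 ≤ t e) → t ∉ Bad n b c → (cgm n u hu x l : ℝ) * (b * c * u) ≤ cost t x l) :=
  (coarse n x l u hu).choose_spec.choose_spec

/-! ### the finite family of loops -/

/-- Self-avoiding loops with start in the box and fewer than `R` coarse steps. -/
def Fam (n u R : ℕ) (hu : 1 ≤ u) : Set ((Fin 2 → ℤ) × List (Step 2)) :=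
  {w | SAW w.1 w.2 ∧ endpt w.1 w.2 = w.1 + Pi.single 0 (n : ℤ) ∧
    (∀ α, 0 ≤ w.1 α ∧ w.1 α < (n : ℤ)) ∧ cgm n u hu w.1 w.2 < R}

lemma lip_dist (u : ℕ) (p : ℕ → Fin 2 → ℤ) (hp : Lip u p) (j : ℕ) (α : Fin 2) :
    |p j α - p 0 α| ≤ (j : ℤ) * u := by
  induction j with
  | zero => simp
  | succ j ih =>
    have h := hp j α
    have : p (j + 1) α - p 0 α = (p (j + 1) α - p j α) + (p j α - p 0 α) := by ring
    rw [this]
    refine (abs_add_le _ _).trans ?_
    push_cast
    linarith

lemma fam_finite (n u R : ℕ) (hu : 1 ≤ u) : (Fam n u R hu).Finite := by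
  have hbox : {x : Fin 2 → ℤ | ∀ α, 0 ≤ x α ∧ x α < (n : ℤ)}.Finite := by
    refine (Set.finite_Icc (0 : Fin 2 → ℤ) (fun _ => (n : ℤ))).subset ?_
    intro x hx
    exact ⟨fun α => (hx α).1, fun α => (hx α).2.le⟩
  refine (hbox.biUnion (t := fun x => (fun l => (x, l)) ''
    {l : List (Step 2) | SAW x l ∧ ∀ j α, |pos x l j α - x α| ≤ ((R * u : ℕ) : ℤ)})
    (fun x _ => (finite_saw x (R * u)).image _)).subset ?_
  rintro ⟨x, l⟩ ⟨h1, h2, h3, h4⟩
  simp only [Set.mem_iUnion, Set.mem_image]
  refine ⟨x, h3, l, ⟨h1, ?_⟩, rfl⟩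
  intro i α
  obtain ⟨c0, c1, -, -, c4, -⟩ := cg_spec n u hu x l
  obtain ⟨j, hj, hjα⟩ := c4 i
  have e1 := hjα α
  have e2 := lip_dist u _ c1 j α
  rw [c0] at e2
  have e3 : pos x l i α - x α = (pos x l i α - cgp n u hu x l j α) + (cgp n u hu x l j α - x α) := by
    ring
  rw [e3]
  refine (abs_add_le _ _).trans ?_
  have hj' : j + 1 ≤ R := by
    have : cgm n u hu x l < R := h4
    omega
  have : ((j : ℤ) + 1) * u ≤ (R : ℤ) * u := by
    apply mul_le_mul_of_nonneg_right _ (by positivity)
    exact_mod_cast hj'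
  push_cast
  linarith

instance fam_fin (n u R : ℕ) (hu : 1 ≤ u) : Finite (Fam n u R hu) := (fam_finite n u R hu).to_subtype

/-! ### properties of the straight walk -/

lemma straight_endpt (k : ℕ) (x : Fin 2 → ℤ) : endpt x (List.replicate k ((0 : Fin 2), true)) =
    x + Pi.single 0 (k : ℤ) := by
  induction k generalizing x with
  | zero => simp [endpt]
  | succ k ih =>
    rw [List.replicate_succ, endpt, ih]
    have : stepVec ((0 : Fin 2), true) = (Pi.single 0 1 : Fin 2 → ℤ) := by simp [stepVec]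
    rw [this, add_assoc, ← Pi.single_add]
    congr 2
    push_cast
    ring

lemma straight_pos (n j : ℕ) (hj : j ≤ n) (x : Fin 2 → ℤ) :
    pos x (straight n) j = x + Pi.single 0 (j : ℤ) := by
  rw [pos, straight, List.take_replicate, min_eq_left hj, straight_endpt]

lemma straight_saw (n : ℕ) (x : Fin 2 → ℤ) : SAW x (straight n) := by
  intro i j hi hj h
  rw [straight, List.length_replicate] at hi hj
  rw [straight_pos n i hi, straight_pos n j hj] at h
  have := congrFun h 0
  simp at this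
  exact_mod_cast this

lemma walkEdges_length {d n : ℕ} (x : Fin d → ℤ) (l : List (Step d)) :
    (walkEdges n x l).length = l.length := by
  induction l generalizing x with
  | nil => rfl
  | cons s l ih => simp [walkEdges, ih]

lemma cost_const_one {d n : ℕ} (x : Fin d → ℤ) (l : List (Step d)) :
    cost (n := n) (fun _ => (1 : ℝ)) x l = l.length := by
  rw [cost, List.map_const', List.sum_replicate, walkEdges_length]
  simp

lemma heavyCount_const_one {d n : ℕ} (x : Fin d → ℤ) (l : List (Step d)) :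
    heavyCount (n := n) 1 (fun _ => (1 : ℝ)) x l = l.length := by
  classical
  unfold heavyCount
  rw [List.countP_eq_length.2, walkEdges_length]
  intro e _
  simp

lemma endpt_dist {d : ℕ} (x : Fin d → ℤ) (l : List (Step d)) (α : Fin d) :
    |endpt x l α - x α| ≤ (l.length : ℤ) := by
  induction l generalizing x with
  | nil => simp [endpt]
  | cons s l ih =>
    have h := ih (x + stepVec s)
    have h1 : |stepVec s α| ≤ 1 := by
      unfold stepVec
      split_ifs
      · by_cases h : s.1 = α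
        · subst h; simp
        · rw [Pi.single_eq_of_ne (Ne.symm h)]; simp
      · by_cases h : s.1 = α
        · subst h; simp
        · rw [Pi.single_eq_of_ne (Ne.symm h)]; simp
    have e : endpt x (s :: l) α - x α = (endpt (x + stepVec s) l α - (x + stepVec s) α)
        + stepVec s α := by
      simp only [endpt, Pi.add_apply]
      ring
    rw [e]
    refine (abs_add_le _ _).trans ?_
    simp only [List.length_cons]
    push_cast
    linarith

lemma one_not_bad (n : ℕ) : (fun _ => (1 : ℝ)) ∉ Bad n 1 1 := by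
  rintro ⟨x, l, -, ⟨α, hα⟩, h⟩
  rw [heavyCount_const_one] at h
  have := endpt_dist x l α
  have h' : (Nat.sqrt n : ℤ) ≤ (l.length : ℤ) := hα.trans this
  have h'' : (Nat.sqrt n : ℝ) ≤ (l.length : ℝ) := by exact_mod_cast h'
  linarith

lemma straight_cgm (n : ℕ) (hu : 1 ≤ Nat.sqrt n) (x : Fin 2 → ℤ) :
    cgm n (Nat.sqrt n) hu x (straight n) * Nat.sqrt n ≤ n := by
  obtain ⟨-, -, -, -, -, h⟩ := cg_spec n (Nat.sqrt n) hu x (straight n)
  have := h rfl (straight_saw n x) 1 1 (fun _ => 1) zero_le_one zero_le_one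
    (fun _ => zero_le_one) (one_not_bad n)
  rw [cost_const_one, straight, List.length_replicate] at this
  rw [straight]
  have h2 : ((cgm n (Nat.sqrt n) hu x (List.replicate n (0, true)) * Nat.sqrt n : ℕ) : ℝ) ≤ (n : ℝ) := by
    push_cast
    linarith
  exact_mod_cast h2


/-! ### the argmin function and its measurability -/

section argmin
variable {E ι : Type*} [Finite ι] [Nonempty ι]

/-- First minimiser. -/
noncomputable def Gf (c : ι → (E → ℝ) → ℝ) (ord : ι → ℕ) (t : E → ℝ) : ι :=
  (exists_argmin (fun g => c g t) ord).choose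

lemma Gf_min (c : ι → (E → ℝ) → ℝ) (ord : ι → ℕ) (t : E → ℝ) (g : ι) :
    c (Gf c ord t) t ≤ c g t := (exists_argmin (fun g => c g t) ord).choose_spec.1 g

lemma Gf_first (c : ι → (E → ℝ) → ℝ) (ord : ι → ℕ) (t : E → ℝ) (g : ι)
    (h : c g t ≤ c (Gf c ord t) t) : ord (Gf c ord t) ≤ ord g :=
  (exists_argmin (fun g => c g t) ord).choose_spec.2 g h

lemma Gf_eq_iff (c : ι → (E → ℝ) → ℝ) (ord : ι → ℕ) (hord : Function.Injective ord)
    (t : E → ℝ) (g : ι) :
    Gf c ord t = g ↔ ∀ g', c g t ≤ c g' t ∧ (c g' t ≤ c g t → ord g ≤ ord g') := by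
  constructor
  · rintro rfl g'
    exact ⟨Gf_min c ord t g', Gf_first c ord t g'⟩
  · intro h
    apply hord
    apply le_antisymm
    · exact Gf_first c ord t g (h _).1
    · exact (h (Gf c ord t)).2 (Gf_min c ord t g)

lemma Gf_meas (c : ι → (E → ℝ) → ℝ) (hc : ∀ g, Measurable (c g)) (ord : ι → ℕ)
    (hord : Function.Injective ord) (g : ι) : MeasurableSet {t | Gf c ord t = g} := by
  have : {t | Gf c ord t = g} =
      ⋂ g', ({t | c g t ≤ c g' t} ∩ ({t | c g' t ≤ c g t}ᶜ ∪ {_t | ord g ≤ ord g'})) := by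
    ext t
    simp only [Set.mem_iInter, Set.mem_inter_iff, Set.mem_union, Set.mem_compl_iff]
    constructor
    · intro h g'
      have h' := (Gf_eq_iff c ord hord t g).1 h g'
      refine ⟨h'.1, ?_⟩
      by_cases hh : c g' t ≤ c g t
      · exact Or.inr (h'.2 hh)
      · exact Or.inl hh
    · intro h
      refine (Gf_eq_iff c ord hord t g).2 (fun g' => ⟨(h g').1, fun hh => ?_⟩)
      rcases (h g').2 with h1 | h1
      · exact absurd hh h1
      · exact h1
  rw [this]
  refine MeasurableSet.iInter (fun g' => ?_)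
  refine (measurableSet_le (hc g) (hc g')).inter (MeasurableSet.union ?_ (MeasurableSet.const _))
  exact (measurableSet_le (hc g') (hc g)).compl

end argmin

lemma measurable_cost {d n : ℕ} (x : Fin d → ℤ) (l : List (Step d)) :
    Measurable (fun t : TEdge d n → ℝ => cost t x l) := by
  unfold cost
  induction l generalizing x with
  | nil => simp [walkEdges]
  | cons s l ih =>
    simp only [walkEdges, List.map_cons, List.sum_cons]
    exact (measurable_pi_apply _).add (ih _)

lemma cost_mono {d n : ℕ} (x : Fin d → ℤ) (l : List (Step d)) (t t' : TEdge d n → ℝ)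
    (h : ∀ e ∈ walkEdges n x l, t e ≤ t' e) : cost t x l ≤ cost t' x l := by
  unfold cost
  exact List.sum_le_sum h

lemma list_sum_ge {α : Type*} [DecidableEq α] (L : List α) (f : α → ℝ) (hf : ∀ a, 0 ≤ f a) (g : ℝ)
    (D : Finset α) (hD : ∀ e ∈ D, e ∈ L ∧ g ≤ f e) : g * (D.card : ℝ) ≤ (L.map f).sum := by
  rw [Finset.sum_list_map_count]
  calc g * (D.card : ℝ) = ∑ e ∈ D, g := by rw [Finset.sum_const, nsmul_eq_mul]; ring
    _ ≤ ∑ e ∈ D, L.count e • f e := by
        apply Finset.sum_le_sum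
        intro e he
        have h3 := hD e he
        have h4 : 1 ≤ L.count e := List.count_pos_iff.2 h3.1
        rw [nsmul_eq_mul]
        have h5 : (1 : ℝ) ≤ (L.count e : ℝ) := by exact_mod_cast h4
        nlinarith [h3.2, hf e]
    _ ≤ ∑ e ∈ L.toFinset, L.count e • f e := by
        apply Finset.sum_le_sum_of_subset_of_nonneg
        · intro e he
          exact List.mem_toFinset.2 (hD e he).1
        · intro e _ _
          exact nsmul_nonneg (hf e) _

/-- The decrease of the cost is at least `g` times the number of distinct lowered edges. -/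
lemma cost_drop {d n : ℕ} (x : Fin d → ℤ) (l : List (Step d)) (t t' : TEdge d n → ℝ)
    (h : ∀ e, t' e ≤ t e) (g : ℝ) (D : Finset (TEdge d n))
    (hD : ∀ e ∈ D, e ∈ walkEdges n x l ∧ g ≤ t e - t' e) :
    cost t' x l ≤ cost t x l - g * (D.card : ℝ) := by
  have h1 : cost t x l - cost t' x l = ((walkEdges n x l).map (fun e => t e - t' e)).sum := by
    unfold cost
    generalize walkEdges n x l = L
    induction L with
    | nil => simp
    | cons a L ih =>
      simp only [List.map_cons, List.sum_cons]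
      rw [← ih]
      ring
  have h2 := list_sum_ge (walkEdges n x l) (fun e => t e - t' e) (fun e => sub_nonneg.2 (h e)) g D hD
  linarith

end Pool.Agent.Lib_helper9.FPP
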