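import Pool.Agent.Lib_helper9.FPP.ASM

set_option autoImplicit false

open MeasureTheory ProbabilityTheory
open scoped BigOperators

namespace Pool.Agent.Lib_helper9.FPP

lemma cost_nonneg {d n : ℕ} (t : TEdge d n → ℝ) (ht : ∀ e, 0 ≤ t e) (x : Fin d → ℤ)
    (l : List (Step d)) : 0 ≤ cost t x l := by
  unfold cost
  apply List.sum_nonneg
  intro y hy
  obtain ⟨e, -, rfl⟩ := List.mem_map.1 hy
  exact ht e

lemma loopTime_le {d n : ℕ} [NeZero d] (t : TEdge d n → ℝ) (ht : ∀ e, 0 ≤ t e) (x : Fin d → ℤ)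
    (l : List (Step d)) (h : endpt x l = x + Pi.single 0 (n : ℤ)) : loopTime d n t ≤ cost t x l := by
  apply csInf_le
  · refine ⟨0, ?_⟩
    rintro c ⟨x', l', -, rfl⟩
    exact cost_nonneg t ht x' l'
  · exact ⟨x, l, h, rfl⟩

lemma le_loopTime {n : ℕ} (t : TEdge 2 n → ℝ) (z : ℝ)
    (h : ∀ (x : Fin 2 → ℤ) (l : List (Step 2)), endpt x l = x + Pi.single 0 (n : ℤ) →
      z ≤ cost t x l) : z ≤ loopTime 2 n t := by
  apply le_csInf
  · refine ⟨cost t 0 (straight n), 0, straight n, ?_, rfl⟩
    rw [straight, straight_endpt]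
  · rintro c ⟨x, l, hx, rfl⟩
    exact h x l hx

/-- On the good event every winding walk costs at least the minimum over the family. -/
lemma fam_min (n R : ℕ) [NeZero n] (hu : 1 ≤ Nat.sqrt n) (b c C' : ℝ) (hb : 0 ≤ b) (hc : 0 ≤ c)
    (hRc : C' * n < (R : ℝ) * (b * c * Nat.sqrt n))
    (t : TEdge 2 n → ℝ) (ht : ∀ e, 0 ≤ t e) (hbad : t ∉ Bad n b c)
    (hstr : cost t 0 (straight n) ≤ C' * n)
    (g : Fam n (Nat.sqrt n) R hu)
    (hmin : ∀ g' : Fam n (Nat.sqrt n) R hu, cost t g.1.1 g.1.2 ≤ cost t g'.1.1 g'.1.2)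
    (hgs : cost t g.1.1 g.1.2 ≤ cost t 0 (straight n))
    (x : Fin 2 → ℤ) (l : List (Step 2)) (hx : endpt x l = x + Pi.single 0 (n : ℤ)) :
    cost t g.1.1 g.1.2 ≤ cost t x l := by
  obtain ⟨l', hs, he, hcost⟩ := loop_erase t ht x l
  refine le_trans ?_ hcost
  -- translate the starting point into the box
  set v : Fin 2 → ℤ := fun α => -(x α / (n : ℤ)) with hv
  have hn0 : (n : ℤ) ≠ 0 := by
    have := NeZero.ne n
    exact_mod_cast this
  have hnpos : (0 : ℤ) < n := by
    have := Nat.pos_of_ne_zero (NeZero.ne n)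
    exact_mod_cast this
  have hbox : ∀ α, 0 ≤ (x + (n : ℤ) • v) α ∧ (x + (n : ℤ) • v) α < (n : ℤ) := by
    intro α
    have e1 : (x + (n : ℤ) • v) α = x α % (n : ℤ) := by
      simp only [Pi.add_apply, Pi.smul_apply, smul_eq_mul, hv]
      rw [Int.emod_def]
      ring
    rw [e1]
    exact ⟨Int.emod_nonneg _ hn0, Int.emod_lt_of_pos _ hnpos⟩
  have hcost' : cost t (x + (n : ℤ) • v) l' = cost t x l' := by
    unfold cost
    rw [walkEdges_shift]
  have hsaw' : SAW (x + (n : ℤ) • v) l' := (SAW_shift x _ l').2 hs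
  have hend' : endpt (x + (n : ℤ) • v) l' = (x + (n : ℤ) • v) + Pi.single 0 (n : ℤ) := by
    rw [endpt_add, he, hx]
    abel
  rw [← hcost']
  by_cases hm : cgm n (Nat.sqrt n) hu (x + (n : ℤ) • v) l' < R
  · exact hmin ⟨(x + (n : ℤ) • v, l'), hsaw', hend', hbox, hm⟩
  · push Not at hm
    obtain ⟨-, -, -, -, -, h6⟩ := cg_spec n (Nat.sqrt n) hu (x + (n : ℤ) • v) l'
    have h7 := h6 rfl hsaw' b c t hb hc ht hbad
    have h8 : (R : ℝ) * (b * c * Nat.sqrt n) ≤
        (cgm n (Nat.sqrt n) hu (x + (n : ℤ) • v) l' : ℝ) * (b * c * Nat.sqrt n) := by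
      apply mul_le_mul_of_nonneg_right _ (by positivity)
      exact_mod_cast hm
    linarith

/-- The straight loop belongs to the family. -/
lemma straight_mem (n R : ℕ) [NeZero n] (hu : 1 ≤ Nat.sqrt n) (hRu : n < R * Nat.sqrt n) :
    ((0 : Fin 2 → ℤ), straight n) ∈ Fam n (Nat.sqrt n) R hu := by
  refine ⟨straight_saw n 0, ?_, ?_, ?_⟩
  · rw [straight, straight_endpt]
  · intro α
    have := Nat.pos_of_ne_zero (NeZero.ne n)
    refine ⟨le_rfl, ?_⟩
    simp only [Pi.zero_apply]
    exact_mod_cast this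
  · have h1 := straight_cgm n hu 0
    by_contra hh
    push Not at hh
    have h2 : R * Nat.sqrt n ≤ cgm n (Nat.sqrt n) hu 0 (straight n) * Nat.sqrt n :=
      Nat.mul_le_mul_right _ hh
    omega

/-- Pigeonhole over the scales. -/
lemma exists_scale {Ω : Type*} [MeasurableSpace Ω] (P : Measure Ω) [IsProbabilityMeasure P]
    (K B : ℕ) (hK : K = 8 * B) (hB : 0 < B) (NF : ℕ → Set Ω) (hNF : ∀ k, MeasurableSet (NF k))
    (h : ∀ ω, ∀ S : Finset ℕ, (∀ k ∈ S, k < K ∧ ω ∈ NF k) → S.card ≤ B) :
    ∃ k < K, P.real (NF k) ≤ 1 / 8 := by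
  classical
  by_contra hcon
  push Not at hcon
  have h1 : ∑ k ∈ Finset.range K, P.real (NF k) ≤ (B : ℝ) := by
    have e1 : ∀ k, P.real (NF k) = ∫ ω, (NF k).indicator (fun _ => (1 : ℝ)) ω ∂P := by
      intro k
      rw [integral_indicator_const _ (hNF k)]
      simp
    simp_rw [e1]
    rw [← integral_finsetSum]
    · have e2 : ∀ ω, ∑ k ∈ Finset.range K, (NF k).indicator (fun _ => (1 : ℝ)) ω ≤ (B : ℝ) := by
        intro ω
        have e3 : ∑ k ∈ Finset.range K, (NF k).indicator (fun _ => (1 : ℝ)) ω =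
            (((Finset.range K).filter (fun k => ω ∈ NF k)).card : ℝ) := by
          rw [Finset.card_filter]
          push_cast
          apply Finset.sum_congr rfl
          intro k _
          simp [Set.indicator_apply]
        rw [e3]
        have := h ω ((Finset.range K).filter (fun k => ω ∈ NF k)) (by
          intro k hk
          rw [Finset.mem_filter, Finset.mem_range] at hk
          exact hk)
        exact_mod_cast this
      calc ∫ ω, ∑ k ∈ Finset.range K, (NF k).indicator (fun _ => (1 : ℝ)) ω ∂P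
          ≤ ∫ _ω, (B : ℝ) ∂P := by
            apply integral_mono_of_nonneg
            · exact Filter.Eventually.of_forall (fun ω => Finset.sum_nonneg (fun k _ =>
                Set.indicator_nonneg (fun _ _ => zero_le_one) _))
            · exact integrable_const _
            · exact Filter.Eventually.of_forall e2
        _ = (B : ℝ) := by simp
    · intro k _
      exact (integrable_const _).indicator (hNF k)
  have h2 : (B : ℝ) < ∑ k ∈ Finset.range K, P.real (NF k) := by
    have hKpos : 0 < K := by omega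
    calc (B : ℝ) = ∑ k ∈ Finset.range K, (1 / 8 : ℝ) := by
          rw [Finset.sum_const, Finset.card_range, nsmul_eq_mul, hK]
          push_cast
          ring
      _ < ∑ k ∈ Finset.range K, P.real (NF k) := by
          apply Finset.sum_lt_sum_of_nonempty
          · exact Finset.nonempty_range_iff.2 (by omega)
          · intro k hk
            exact hcon k (Finset.mem_range.1 hk)
  linarith

end Pool.Agent.Lib_helper9.FPP
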