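import Pool.Agent.Lib_helper9.FPP.ASM2

set_option autoImplicit false

open MeasureTheory ProbabilityTheory
open scoped BigOperators

namespace Pool.Agent.Lib_helper9.FPP

/-- One fixed `n`. -/
theorem core_n (F : Measure ℝ) [IsProbabilityMeasure F] (hpos : F (Set.Iio 0) = 0)
    (a b c C' : ℝ) (hab : a < b) (ha : 0 < F (Set.Iic a)) (hb : 0 < b) (hc : 0 < c)
    (n : ℕ) [NeZero n] (hn : 100 ≤ n) (M : ℕ) (hM : 2 ≤ M) (R : ℕ) (hR : M ^ (16 * M ^ 3) ∣ R)
    (hRu : n < R * Nat.sqrt n)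
    (hRc : C' * n < (R : ℝ) * (b * c * Nat.sqrt n))
    (hbad : (Measure.pi (fun _ : TEdge 2 n => F)) (Bad n b c) ≤ ENNReal.ofReal (1 / 32))
    (hstr : (Measure.pi (fun _ : TEdge 2 n => F)) {t | C' * n < cost t 0 (straight n)}
      ≤ ENNReal.ofReal (1 / 32))
    (hlog : ∀ k < 16 * M ^ 3,
      (((n / (Nat.sqrt n * M ^ k) + 1) ^ 2 : ℕ) : ℝ) ≤ Real.exp ((R / M ^ (k + 1) : ℕ) : ℝ))
    (hMu : M ≤ Nat.sqrt n)
    (δ : ℝ) (hδ0 : 0 < δ)
    (hδ : 16 * δ ^ 2 * (600 * ((R : ℝ) * Nat.sqrt n) ^ 2 *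
      ((1 + Real.log (2 * (2 * M + 3) ^ 2)) / M)) ≤ (F.real (Set.Iic a)) ^ 2)
    (hδh : 8 ≤ δ * (c * ((n : ℝ) / 4))) (x : ℝ)
    (hx : 3 / 4 ≤ (Measure.pi (fun _ : TEdge 2 n => F)).real {t | loopTime 2 n t ≤ x}) :
    Real.exp (-10) / 8 ≤ (Measure.pi (fun _ : TEdge 2 n => F)).real
      {t | loopTime 2 n t ≤ x - (b - a) * (δ * (c * ((n : ℝ) / 4)) / 2)} := by
  classical
  set P := Measure.pi (fun _ : TEdge 2 n => F) with hP
  have hu : 1 ≤ Nat.sqrt n := by omega
  set u := Nat.sqrt n with hudef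
  let ι := Fam n u R hu
  haveI : Nonempty ι := ⟨⟨_, straight_mem n R hu hRu⟩⟩
  haveI : Fintype ι := Fintype.ofFinite ι
  let cc : ι → (TEdge 2 n → ℝ) → ℝ := fun g t => cost t g.1.1 g.1.2
  have hcc : ∀ g, Measurable (cc g) := fun g => measurable_cost _ _
  let ord : ι → ℕ := fun g => (Fintype.equivFin ι g : ℕ)
  have hord : Function.Injective ord := fun g g' h => by
    apply (Fintype.equivFin ι).injective
    exact Fin.ext h
  let G : (TEdge 2 n → ℝ) → ι := Gf cc ord
  -- nonnegative weights almost surely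
  have hae : ∀ᵐ t ∂P, ∀ e, 0 ≤ t e := by
    rw [hP]
    rw [MeasureTheory.ae_all_iff]
    intro e
    have h1 : ∀ᵐ y ∂F, 0 ≤ y := by
      rw [ae_iff]
      have : {y : ℝ | ¬ 0 ≤ y} = Set.Iio 0 := by ext y; simp
      rw [this, hpos]
    exact (Measure.tendsto_eval_ae_ae (μ := fun _ : TEdge 2 n => F) (i := e)).eventually h1
  have hnnset : MeasurableSet {t : TEdge 2 n → ℝ | ∀ e, 0 ≤ t e} := by
    have : {t : TEdge 2 n → ℝ | ∀ e, 0 ≤ t e} = ⋂ e, {t | 0 ≤ t e} := by
      ext t; simp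
    rw [this]
    exact MeasurableSet.iInter (fun e => measurableSet_le measurable_const (measurable_pi_apply e))
  -- pigeonhole over scales
  have hGm : ∀ g, MeasurableSet {t | G t = g} := fun g => Gf_meas cc hcc ord hord g
  have hNF : ∀ k, MeasurableSet {t | ¬ FlatScale M R k u (cgp n u hu (G t).1.1 (G t).1.2)} := by
    intro k
    have e1 : {t | ¬ FlatScale M R k u (cgp n u hu (G t).1.1 (G t).1.2)} =
        ⋃ g : ι, ({t | G t = g} ∩ {_t | ¬ FlatScale M R k u (cgp n u hu g.1.1 g.1.2)}) := by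
      ext t
      simp only [Set.mem_iUnion, Set.mem_inter_iff]
      constructor
      · intro h
        exact ⟨G t, rfl, h⟩
      · rintro ⟨g, h1, h2⟩
        have h1' : G t = g := h1
        subst h1'
        exact h2
    rw [e1]
    exact MeasurableSet.iUnion (fun g => (hGm g).inter (MeasurableSet.const _))
  obtain ⟨k, hk, hkP⟩ := exists_scale P (16 * M ^ 3) (2 * M ^ 3) (by ring) (by positivity)
    (fun k => {t | ¬ FlatScale M R k u (cgp n u hu (G t).1.1 (G t).1.2)}) hNF (by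
      intro t S hS
      exact geo_flat M hM u hu (16 * M ^ 3) R hR _ (cg_spec n u hu _ _).2.1 S hS)
  have hk1 : M ^ (k + 1) ∣ R := (pow_dvd_pow M (by omega)).trans hR
  obtain ⟨tb, J, ht1, ht2, ht3, ht4⟩ := geo_tube M hM u hu n R k hk1
  have hRpos : 0 < R := by
    rcases Nat.eq_zero_or_pos R with h | h
    · rw [h] at hRu; omega
    · exact h
  -- edges of a loop lie in its tube
  have hedge : ∀ g : ι, ∀ e ∈ walkEdges n g.1.1 g.1.2, e ∈ tb (cgp n u hu g.1.1 g.1.2) := by
    intro g e he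
    obtain ⟨c0, c1, c2, c3, -, -⟩ := cg_spec n u hu g.1.1 g.1.2
    obtain ⟨j, hj, y, hy, i, rfl⟩ := c3 e he
    have hm : cgm n u hu g.1.1 g.1.2 < R := g.2.2.2.2
    exact ht1 _ c1 j (by omega) y hy i
  let LS : LoopSysR (TEdge 2 n) ι :=
    { c := cc
      tube := fun g => tb (cgp n u hu g.1.1 g.1.2)
      mono := fun g t t' h => cost_mono _ _ t t' (fun e he => h e (hedge g e he))
      meas := hcc
      G := G
      ord := ord
      ord_inj := hord
      G_min := fun t g => Gf_min cc ord t g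
      G_first := fun t g h => Gf_first cc ord t g h }
  -- the event
  set BadM := toMeasurable P (Bad n b c) with hBadM
  have hBadM_meas : MeasurableSet BadM := measurableSet_toMeasurable _ _
  have hBad_sub : Bad n b c ⊆ BadM := subset_toMeasurable _ _
  have hBadM_P : P.real BadM ≤ 1 / 32 := by
    rw [measureReal_def, hBadM, measure_toMeasurable]
    exact ENNReal.toReal_le_of_le_ofReal (by norm_num) hbad
  have hStr_meas : MeasurableSet {t : TEdge 2 n → ℝ | C' * n < cost t 0 (straight n)} :=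
    measurableSet_lt measurable_const (measurable_cost _ _)
  have hStr_P : P.real {t : TEdge 2 n → ℝ | C' * n < cost t 0 (straight n)} ≤ 1 / 32 := by
    rw [measureReal_def]
    exact ENNReal.toReal_le_of_le_ofReal (by norm_num) hstr
  have hTm : Measurable (fun t => cc (G t) t) := by
    have e1 : (fun t => cc (G t) t) = fun t => ∑ g : ι, ({t | G t = g}.indicator (cc g)) t := by
      funext t
      rw [Finset.sum_eq_single (G t)]
      · simp [Set.indicator_apply]
      · intro g _ hg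
        rw [Set.indicator_of_notMem]
        intro h
        exact hg h.symm
      · intro h
        exact absurd (Finset.mem_univ _) h
    rw [e1]
    exact Finset.measurable_fun_sum _ (fun g _ => (hcc g).indicator (hGm g))
  set A : Set (TEdge 2 n → ℝ) := {t | ∀ e, 0 ≤ t e} ∩ {t | cc (G t) t ≤ x} ∩ BadMᶜ ∩
    {t | C' * n < cost t 0 (straight n)}ᶜ ∩
    {t | ¬ FlatScale M R k u (cgp n u hu (G t).1.1 (G t).1.2)}ᶜ with hAdef
  have hAm : MeasurableSet A :=
    (((hnnset.inter (measurableSet_le hTm measurable_const)).inter hBadM_meas.compl).inter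
      hStr_meas.compl).inter (hNF k).compl
  -- on the good event the minimum over the family is the passage time
  have hgood : ∀ t : TEdge 2 n → ℝ, (∀ e, 0 ≤ t e) → t ∉ Bad n b c →
      cost t 0 (straight n) ≤ C' * n → cc (G t) t ≤ loopTime 2 n t := by
    intro t h0 h1 h2
    apply le_loopTime
    intro y l hy
    exact fam_min n R hu b c C' hb.le hc.le hRc t h0 h1 h2 (G t) (fun g' => Gf_min cc ord t g')
      (Gf_min cc ord t ⟨_, straight_mem n R hu hRu⟩) y l hy
  -- probability of the event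
  have hAP : 1 / 2 ≤ P.real A := by
    have hsub : {t | loopTime 2 n t ≤ x} ⊆ A ∪ ({t | ∀ e, 0 ≤ t e}ᶜ ∪ (BadM ∪
        ({t | C' * n < cost t 0 (straight n)} ∪
        {t | ¬ FlatScale M R k u (cgp n u hu (G t).1.1 (G t).1.2)}))) := by
      intro t ht
      by_cases h0 : ∀ e, 0 ≤ t e
      · by_cases h1 : t ∈ BadM
        · exact Or.inr (Or.inr (Or.inl h1))
        · by_cases h2 : C' * n < cost t 0 (straight n)
          · exact Or.inr (Or.inr (Or.inr (Or.inl h2)))
          · by_cases h3 : ¬ FlatScale M R k u (cgp n u hu (G t).1.1 (G t).1.2)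
            · exact Or.inr (Or.inr (Or.inr (Or.inr h3)))
            · left
              refine ⟨⟨⟨⟨h0, ?_⟩, h1⟩, h2⟩, h3⟩
              exact (hgood t h0 (fun hh => h1 (hBad_sub hh)) (not_lt.1 h2)).trans ht
      · exact Or.inr (Or.inl h0)
    have hz : P.real {t | ∀ e, 0 ≤ t e}ᶜ = 0 := by
      rw [measureReal_def]
      have : P {t | ∀ e, 0 ≤ t e}ᶜ = 0 := hae
      rw [this]; simp
    have h1 := measureReal_mono (μ := P) hsub (by finiteness)
    have h2 := measureReal_union_le (μ := P) A ({t | ∀ e, 0 ≤ t e}ᶜ ∪ (BadM ∪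
        ({t | C' * n < cost t 0 (straight n)} ∪
        {t | ¬ FlatScale M R k u (cgp n u hu (G t).1.1 (G t).1.2)})))
    have h3 := measureReal_union_le (μ := P) {t | ∀ e, 0 ≤ t e}ᶜ (BadM ∪
        ({t | C' * n < cost t 0 (straight n)} ∪
        {t | ¬ FlatScale M R k u (cgp n u hu (G t).1.1 (G t).1.2)}))
    have h4 := measureReal_union_le (μ := P) BadM
        ({t | C' * n < cost t 0 (straight n)} ∪
        {t | ¬ FlatScale M R k u (cgp n u hu (G t).1.1 (G t).1.2)})
    have h5 := measureReal_union_le (μ := P) {t | C' * n < cost t 0 (straight n)}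
        {t | ¬ FlatScale M R k u (cgp n u hu (G t).1.1 (G t).1.2)}
    linarith
  -- sizes
  set lam : ℝ := 1 + Real.log (2 * (2 * M + 3) ^ 2) with hlam
  set N : ℕ := R / M ^ (k + 1) with hNdef
  have hMpos : (0 : ℝ) < M := by positivity
  have hNM : N * M ^ (k + 1) = R := Nat.div_mul_cancel hk1
  have hN1 : 1 ≤ N := by
    rcases Nat.eq_zero_or_pos N with h | h
    · rw [h] at hNM; omega
    · exact h
  have hlogpos : 0 ≤ Real.log (2 * (2 * (M : ℝ) + 3) ^ 2) := by
    apply Real.log_nonneg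
    nlinarith
  have hlam1 : 1 ≤ lam := by rw [hlam]; linarith
  set H : ℝ := (N : ℝ) * lam with hH
  have hN1' : (1 : ℝ) ≤ N := by exact_mod_cast hN1
  have hH1 : 1 ≤ H := by
    rw [hH]; nlinarith
  set Smax : ℝ := 600 * R * u ^ 2 * M ^ k with hSmax
  have hlamM : lam ≤ 600 * (M : ℝ) ^ 2 := by
    have h1 : Real.log (2 * (2 * (M : ℝ) + 3) ^ 2) ≤ 2 * (2 * (M : ℝ) + 3) ^ 2 - 1 :=
      Real.log_le_sub_one_of_pos (by positivity)
    have h2 : (2 : ℝ) ≤ M := by exact_mod_cast hM
    rw [hlam]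
    nlinarith
  have huM : (M : ℝ) ≤ u := by exact_mod_cast hMu
  have hHS : H ≤ Smax := by
    have h1 : (R : ℝ) = N * M ^ (k + 1) := by exact_mod_cast hNM.symm
    have h2 : (1 : ℝ) ≤ (M : ℝ) ^ k := one_le_pow₀ (by linarith [show (2 : ℝ) ≤ M by exact_mod_cast hM])
    have h3 : (M : ℝ) ^ 2 ≤ (u : ℝ) ^ 2 := by gcongr
    have h4 : (1 : ℝ) ≤ (M : ℝ) ^ (k + 1) := one_le_pow₀ (by linarith [show (2 : ℝ) ≤ M by exact_mod_cast hM])
    have h5 : (1 : ℝ) ≤ (M : ℝ) ^ (k + 1) * (M : ℝ) ^ k := by nlinarith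
    calc H = N * lam := rfl
      _ ≤ N * (600 * (M : ℝ) ^ 2) := by gcongr
      _ ≤ N * (600 * (u : ℝ) ^ 2) := by gcongr
      _ = N * (600 * (u : ℝ) ^ 2) * 1 := by ring
      _ ≤ N * (600 * (u : ℝ) ^ 2) * ((M : ℝ) ^ (k + 1) * (M : ℝ) ^ k) := by
          apply mul_le_mul_of_nonneg_left h5 (by positivity)
      _ = Smax := by rw [hSmax, h1]; ring
  have hJcard : (J.card : ℝ) ≤ Real.exp H := by
    have h1 : (J.card : ℝ) ≤ (((n / (u * M ^ k) + 1) ^ 2 : ℕ) : ℝ) *
        (((2 * (2 * M + 3) ^ 2) ^ N : ℕ) : ℝ) := by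
      exact_mod_cast ht4
    have h2 : (((2 * (2 * M + 3) ^ 2) ^ N : ℕ) : ℝ) =
        Real.exp ((N : ℝ) * Real.log (2 * (2 * (M : ℝ) + 3) ^ 2)) := by
      rw [mul_comm (N : ℝ) (Real.log _), Real.exp_mul, Real.exp_log (by positivity)]
      push_cast
      rw [Real.rpow_natCast]
    calc (J.card : ℝ) ≤ _ := h1
      _ ≤ Real.exp (N : ℝ) * Real.exp ((N : ℝ) * Real.log (2 * (2 * (M : ℝ) + 3) ^ 2)) := by
          rw [h2]
          apply mul_le_mul_of_nonneg_right (hlog k hk) (Real.exp_nonneg _)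
      _ = Real.exp H := by
          rw [← Real.exp_add, hH, hlam]
          congr 1
          ring
  have hScard : ∀ S ∈ J, (S.card : ℝ) ≤ Smax := by
    intro S hS
    have := ht3 S hS
    rw [hSmax]
    exact_mod_cast this
  have hprod : Smax * H = 600 * ((R : ℝ) * u) ^ 2 * (lam / M) := by
    have h1 : (R : ℝ) = N * M ^ (k + 1) := by exact_mod_cast hNM.symm
    rw [hSmax, hH, h1]
    field_simp
    ring
  have hδ' : 16 * δ ^ 2 * Smax * H ≤ (F.real (Set.Iic a)) ^ 2 := by
    rw [mul_assoc (16 * δ ^ 2), hprod]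
    exact hδ
  -- apply the core
  have key := mix_core LS F a ha δ hδ0 J Smax H hH1 hHS hJcard hScard hδ' A hAm x (b - a)
    (c * ((n : ℝ) / 4)) (by linarith) hδh
    (by
      intro t ht
      have hflat : FlatScale M R k u (cgp n u hu (G t).1.1 (G t).1.2) := not_not.1 ht.2
      refine ht2 _ (cg_spec n u hu _ _).2.1 ?_ hflat
      rw [(cg_spec n u hu _ _).1]
      exact (G t).2.2.2.1)
    (by
      intro t ht
      exact ht.1.1.1.2)
    (by
      intro t ht
      have h0 : ∀ e, 0 ≤ t e := ht.1.1.1.1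
      have hnb : t ∉ Bad n b c := fun hh => ht.1.1.2 (hBad_sub hh)
      obtain ⟨D, hD1, hD2⟩ := many_heavy n hn b c hc.le t hnb (G t).1.1 (G t).1.2 (G t).2.1
        (G t).2.2.1
      refine ⟨D, fun e he => hedge (G t) e (hD1 e he).1, hD2,
        fun e he => lt_of_lt_of_le hab (hD1 e he).2, ?_⟩
      intro t' ht'
      have h1 : cc (G t') t' ≤ cc (G t) t' := Gf_min cc ord t' (G t)
      refine h1.trans ?_
      apply cost_drop
      · intro e
        rcases ht' e with h | h
        · exact h.le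
        · exact h.2.2
      · intro e he
        rw [Finset.mem_filter] at he
        refine ⟨(hD1 e he.1).1, ?_⟩
        have := (hD1 e he.1).2
        linarith [he.2])
  -- conclusion
  have hfin : P.real {t | LS.c (LS.G t) t ≤ x - (b - a) * (δ * (c * ((n : ℝ) / 4)) / 2)} ≤
      P.real {t | loopTime 2 n t ≤ x - (b - a) * (δ * (c * ((n : ℝ) / 4)) / 2)} := by
    rw [measureReal_def, measureReal_def]
    apply ENNReal.toReal_mono (by finiteness)
    apply measure_mono_ae
    filter_upwards [hae] with t ht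
    intro h
    exact (loopTime_le t ht _ _ (G t).2.2.1).trans h
  have he8 : Real.exp (-8) ≤ 1 / 8 := by
    have h1 : Real.exp (-8) * Real.exp 8 = 1 := by rw [← Real.exp_add]; simp
    have h2 : (8 : ℝ) + 1 ≤ Real.exp 8 := Real.add_one_le_exp 8
    have h3 := Real.exp_pos (-8)
    nlinarith
  have he10 : Real.exp (-10) * Real.exp 10 = 1 := by rw [← Real.exp_add]; simp
  have hpos10 := Real.exp_pos 10
  have hposm10 := Real.exp_pos (-10)
  have h9 : 1 / 8 ≤ Real.exp 10 *
      P.real {t | LS.c (LS.G t) t ≤ x - (b - a) * (δ * (c * ((n : ℝ) / 4)) / 2)} := by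
    linarith
  calc Real.exp (-10) / 8 = Real.exp (-10) * (1 / 8) := by ring
    _ ≤ Real.exp (-10) * (Real.exp 10 *
      P.real {t | LS.c (LS.G t) t ≤ x - (b - a) * (δ * (c * ((n : ℝ) / 4)) / 2)}) := by
        apply mul_le_mul_of_nonneg_left h9 hposm10.le
    _ = P.real {t | LS.c (LS.G t) t ≤ x - (b - a) * (δ * (c * ((n : ℝ) / 4)) / 2)} := by
        rw [← mul_assoc, he10, one_mul]
    _ ≤ _ := hfin

end Pool.Agent.Lib_helper9.FPP
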