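import Pool.Agent.Lib_helper9.FPP.ASM3

set_option autoImplicit false

open MeasureTheory ProbabilityTheory Filter
open scoped BigOperators

namespace Pool.Agent.Lib_helper9.FPP

lemma lam_bound (M : ℕ) (hM : 2 ≤ M) :
    (1 + Real.log (2 * (2 * (M : ℝ) + 3) ^ 2)) / M ≤ 9 / Real.sqrt M := by
  have hM' : (2 : ℝ) ≤ M := by exact_mod_cast hM
  have hMpos : (0 : ℝ) < M := by linarith
  have hs : 0 < Real.sqrt M := Real.sqrt_pos.2 hMpos
  have hs1 : 1 ≤ Real.sqrt M := by
    rw [show (1 : ℝ) = Real.sqrt 1 by simp]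
    exact Real.sqrt_le_sqrt (by linarith)
  have hsq : Real.sqrt M * Real.sqrt M = M := Real.mul_self_sqrt hMpos.le
  have h1 : Real.log (2 * (2 * (M : ℝ) + 3) ^ 2) ≤ Real.log (Real.exp 4 * (Real.sqrt M) ^ 4) := by
    apply Real.log_le_log (by positivity)
    have e1 : (Real.sqrt M) ^ 4 = (M : ℝ) ^ 2 := by
      calc (Real.sqrt M) ^ 4 = (Real.sqrt M * Real.sqrt M) ^ 2 := by ring
        _ = _ := by rw [hsq]
    rw [e1]
    have e2 : (50 : ℝ) ≤ Real.exp 4 := by
      have h := Real.exp_one_gt_d9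
      have h2 : Real.exp 4 = (Real.exp 1) ^ 4 := by
        rw [← Real.exp_nat_mul]; norm_num
      rw [h2]
      have h3 : (2.7182818283 : ℝ) ^ 4 ≤ (Real.exp 1) ^ 4 := by gcongr
      have h4 : (50 : ℝ) ≤ (2.7182818283 : ℝ) ^ 4 := by norm_num
      linarith
    nlinarith
  have h2 : Real.log (Real.exp 4 * (Real.sqrt M) ^ 4) = 4 + 4 * Real.log (Real.sqrt M) := by
    rw [Real.log_mul (by positivity) (by positivity), Real.log_exp, Real.log_pow]
    norm_num
  have h3 : Real.log (Real.sqrt M) ≤ Real.sqrt M - 1 := Real.log_le_sub_one_of_pos hs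
  rw [div_le_div_iff₀ hMpos hs]
  have h4 : 1 + Real.log (2 * (2 * (M : ℝ) + 3) ^ 2) ≤ 9 * Real.sqrt M := by linarith
  nlinarith

/-- Divergence of the variance from the heavy-edge property. -/
theorem var_tendsto_of_heavy (F : Measure ℝ) [IsProbabilityMeasure F] (hpos : F (Set.Iio 0) = 0)
    (h2 : Integrable (fun y : ℝ => y ^ 2) F)
    (a b c : ℝ) (hab : a < b) (ha : 0 < F (Set.Iic a)) (hb : 0 < b) (hc : 0 < c)
    (hbad : Tendsto (fun n : ℕ => (Measure.pi (fun _ : TEdge 2 (n + 1) => F)) (Bad (n + 1) b c))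
        atTop (nhds 0)) :
    Tendsto (fun n : ℕ => variance (loopTime 2 (n + 1)) (Measure.pi (fun _ : TEdge 2 (n + 1) => F)))
      atTop atTop := by
  obtain ⟨C', hC', hstr⟩ := straight_cost F hpos h2
  set w0 : ℝ := F.real (Set.Iic a) with hw0
  have hw0pos : 0 < w0 := by
    rw [hw0, measureReal_def]
    exact ENNReal.toReal_pos ha.ne' (by finiteness)
  set C1 : ℝ := C' / (b * c) + 2 with hC1
  have hbc : 0 < b * c := mul_pos hb hc
  have hC1pos : 0 < C1 := by positivity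
  set κ : ℝ := Real.exp (-10) / 8 with hκ
  have hκpos : 0 < κ := by positivity
  have hκ1 : κ ≤ 1 := by
    have : Real.exp (-10) ≤ 1 := Real.exp_le_one_iff.2 (by norm_num)
    rw [hκ]; linarith
  rw [tendsto_atTop]
  intro B
  -- choice of M
  set q : ℝ := (b - a) * c * w0 / (8 * C1) with hq
  have hqpos : 0 < q := by
    have : 0 < b - a := sub_pos.2 hab
    positivity
  obtain ⟨Z, hZ1, hZ2, hZ3⟩ : ∃ Z : ℝ, 1 ≤ Z ∧ 8 ≤ c * w0 * Z / (4 * C1) ∧
      B ≤ κ * (q * Z) ^ 2 / 16 := by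
    refine ⟨max 1 (max (32 * C1 / (c * w0)) (max 0 B * 16 / (κ * q ^ 2) + 1)), le_max_left _ _, ?_, ?_⟩
    · have h1 : 32 * C1 / (c * w0) ≤
          max 1 (max (32 * C1 / (c * w0)) (max 0 B * 16 / (κ * q ^ 2) + 1)) :=
        (le_max_left _ _).trans (le_max_right _ _)
      have hcw : 0 < c * w0 := mul_pos hc hw0pos
      rw [div_le_iff₀ hcw] at h1
      rw [le_div_iff₀ (by positivity)]
      linarith
    · set Z := max 1 (max (32 * C1 / (c * w0)) (max 0 B * 16 / (κ * q ^ 2) + 1)) with hZ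
      have h1 : max 0 B * 16 / (κ * q ^ 2) + 1 ≤ Z := (le_max_right _ _).trans (le_max_right _ _)
      have h0 : 1 ≤ Z := le_max_left _ _
      have h2 : max 0 B * 16 / (κ * q ^ 2) ≤ Z := by linarith
      rw [div_le_iff₀ (by positivity)] at h2
      have h3 : Z ≤ Z ^ 2 := by nlinarith
      have h4 : B ≤ max 0 B := le_max_right _ _
      have h5 : Z * (κ * q ^ 2) ≤ Z ^ 2 * (κ * q ^ 2) := by gcongr
      have h6 : κ * (q * Z) ^ 2 / 16 = Z ^ 2 * (κ * q ^ 2) / 16 := by ring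
      rw [h6]
      linarith
  obtain ⟨M, hM2, hMZ⟩ : ∃ M : ℕ, 2 ≤ M ∧ 86400 * Z ^ 2 ≤ Real.sqrt M := by
    obtain ⟨m, hm⟩ := exists_nat_ge ((86400 * Z ^ 2) ^ 2)
    refine ⟨max 2 m, le_max_left _ _, ?_⟩
    apply Real.le_sqrt_of_sq_le
    refine hm.trans ?_
    exact_mod_cast le_max_right 2 m
  have hMpos : (0 : ℝ) < M := by
    have : (2 : ℝ) ≤ M := by exact_mod_cast hM2
    linarith
  have hMnat : 0 < M := by omega
  set K : ℕ := 16 * M ^ 3 with hK
  set W : ℝ := (M : ℝ) ^ K with hW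
  have hWpos : 0 < W := by positivity
  -- eventual conditions on n
  have hsqrt : Tendsto (fun n : ℕ => Nat.sqrt (n + 1)) atTop atTop := by
    rw [tendsto_atTop]
    intro m
    filter_upwards [eventually_ge_atTop (m * m)] with n hn
    exact Nat.le_sqrt.2 (by omega)
  have hlogev : ∀ᶠ y : ℝ in atTop, 2 * Real.log (y + 1) ≤ y / W := by
    have h1 : Tendsto (fun y : ℝ => Real.log y / y) atTop (nhds 0) := by
      have := Real.isLittleO_log_id_atTop
      simpa using this.tendsto_div_nhds_zero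
    have h2 : ∀ᶠ y : ℝ in atTop, Real.log y / y < 1 / (4 * W) :=
      h1.eventually_lt_const (by positivity)
    filter_upwards [h2, eventually_ge_atTop (1 : ℝ), eventually_ge_atTop (4 * W * Real.log 2 + 1)]
      with y hy hy1 hy2
    have hy0 : 0 < y := by linarith
    rw [div_lt_div_iff₀ hy0 (by positivity)] at hy
    have h3 : Real.log (y + 1) ≤ Real.log 2 + Real.log y := by
      rw [← Real.log_mul (by norm_num) hy0.ne']
      exact Real.log_le_log (by linarith) (by linarith)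
    rw [le_div_iff₀ hWpos]
    have h4 : Real.log (y + 1) * W ≤ (Real.log 2 + Real.log y) * W := by gcongr
    linarith
  have e1 : ∀ᶠ n : ℕ in atTop, M ^ K ≤ Nat.sqrt (n + 1) := hsqrt.eventually_ge_atTop _
  have e2 : ∀ᶠ n : ℕ in atTop, M ≤ Nat.sqrt (n + 1) := hsqrt.eventually_ge_atTop _
  have e3 : ∀ᶠ n : ℕ in atTop, 2 * Real.log (((n + 1 : ℕ) : ℝ) / Nat.sqrt (n + 1) + 1) ≤
      (((n + 1 : ℕ) : ℝ) / Nat.sqrt (n + 1)) / W := by
    have h1 : Tendsto (fun n : ℕ => ((n + 1 : ℕ) : ℝ) / Nat.sqrt (n + 1)) atTop atTop := by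
      have h3 : Tendsto (fun n : ℕ => ((Nat.sqrt (n + 1) : ℕ) : ℝ)) atTop atTop :=
        tendsto_natCast_atTop_atTop.comp hsqrt
      apply tendsto_atTop_mono' _ _ h3
      filter_upwards [hsqrt.eventually_ge_atTop 1] with n hn
      have h4 : (0 : ℝ) < (Nat.sqrt (n + 1) : ℝ) := by exact_mod_cast hn
      rw [le_div_iff₀ h4]
      exact_mod_cast Nat.sqrt_le (n + 1)
    exact h1.eventually hlogev
  have e4 : ∀ᶠ n : ℕ in atTop, (Measure.pi (fun _ : TEdge 2 (n + 1) => F)) (Bad (n + 1) b c)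
      ≤ ENNReal.ofReal (1 / 32) :=
    hbad.eventually_le_const (by simp)
  have e5 : ∀ᶠ n : ℕ in atTop, (Measure.pi (fun _ : TEdge 2 (n + 1) => F))
      {t | C' * ((n + 1 : ℕ) : ℝ) < cost t (0 : Fin 2 → ℤ) (straight (n + 1))}
      ≤ ENNReal.ofReal (1 / 32) :=
    hstr.eventually_le_const (by simp)
  filter_upwards [e1, e2, e3, e4, e5, eventually_ge_atTop 100] with n h1 h2' h3 h4 h5 h6
  set N : ℕ := n + 1 with hN
  haveI : NeZero N := ⟨by omega⟩
  set u : ℕ := Nat.sqrt N with hu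
  have hu1 : 1 ≤ u := le_trans (by omega) h2'
  have huR : (0 : ℝ) < u := by exact_mod_cast hu1
  have hNR : (0 : ℝ) < N := by
    have : 0 < N := by omega
    exact_mod_cast this
  set T : ℝ := (C' / (b * c) + 1) * N / (u * W) with hT
  have hTnn : 0 ≤ T := by positivity
  set R : ℕ := M ^ K * (⌊T⌋₊ + 1) with hR
  have hRreal : (R : ℝ) = W * (⌊T⌋₊ + 1) := by
    rw [hR, hW]; push_cast; ring
  have hTW : T * (u * W) = (C' / (b * c) + 1) * N := by
    rw [hT]; field_simp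
  have hRu1 : (C' / (b * c) + 1) * N < (R : ℝ) * u := by
    have h7 : T < ⌊T⌋₊ + 1 := Nat.lt_floor_add_one T
    rw [← hTW, hRreal]
    calc T * (u * W) < (⌊T⌋₊ + 1) * (u * W) := by
          apply mul_lt_mul_of_pos_right h7 (by positivity)
      _ = _ := by ring
  have hRu2 : (R : ℝ) * u ≤ C1 * N := by
    have h7 : (⌊T⌋₊ : ℝ) ≤ T := Nat.floor_le hTnn
    have h8 : W * u ≤ N := by
      have : (M ^ K) * u ≤ N := by
        calc (M ^ K) * u ≤ u * u := Nat.mul_le_mul_right _ h1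
          _ ≤ N := Nat.sqrt_le N
      rw [hW]
      exact_mod_cast this
    calc (R : ℝ) * u = ⌊T⌋₊ * (u * W) + W * u := by rw [hRreal]; ring
      _ ≤ T * (u * W) + N := by gcongr
      _ = C1 * N := by rw [hTW, hC1]; ring
  have hC'bc : 0 ≤ C' / (b * c) := by positivity
  have hcond1 : N < R * Nat.sqrt N := by
    have : (N : ℝ) < (R : ℝ) * u := by nlinarith
    exact_mod_cast this
  have hcond2 : C' * N < (R : ℝ) * (b * c * Nat.sqrt N) := by
    have h7 : C' / (b * c) * N < (R : ℝ) * u := by nlinarith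
    rw [div_mul_eq_mul_div, div_lt_iff₀ hbc] at h7
    calc C' * N < (R : ℝ) * u * (b * c) := h7
      _ = (R : ℝ) * (b * c * Nat.sqrt N) := by rw [hu]; ring
  have hlog : ∀ k < 16 * M ^ 3,
      (((N / (Nat.sqrt N * M ^ k) + 1) ^ 2 : ℕ) : ℝ) ≤ Real.exp ((R / M ^ (k + 1) : ℕ) : ℝ) := by
    intro k hk
    have hy : (0 : ℝ) < (N : ℝ) / u + 1 := by positivity
    have h7 : (((N / (Nat.sqrt N * M ^ k) + 1) ^ 2 : ℕ) : ℝ) ≤ ((N : ℝ) / u + 1) ^ 2 := by
      push_cast
      gcongr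
      calc ((N / (Nat.sqrt N * M ^ k) : ℕ) : ℝ) ≤ (N : ℝ) / ((Nat.sqrt N * M ^ k : ℕ) : ℝ) :=
            Nat.cast_div_le
        _ ≤ (N : ℝ) / u := by
            apply div_le_div_of_nonneg_left hNR.le huR
            have : u ≤ Nat.sqrt N * M ^ k := Nat.le_mul_of_pos_right _ (by positivity)
            exact_mod_cast this
    refine h7.trans ?_
    have h8 : ((N : ℝ) / u + 1) ^ 2 = Real.exp (2 * Real.log ((N : ℝ) / u + 1)) := by
      rw [mul_comm, Real.exp_mul, Real.exp_log hy]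
      norm_num
    rw [h8]
    apply Real.exp_le_exp.2
    refine h3.trans ?_
    have h9 : (N : ℝ) / u / W ≤ (⌊T⌋₊ + 1 : ℝ) := by
      have h10 : T < ⌊T⌋₊ + 1 := Nat.lt_floor_add_one T
      have h11 : (N : ℝ) / u / W ≤ T := by
        rw [hT, div_div]
        apply div_le_div_of_nonneg_right _ (by positivity)
        nlinarith
      linarith
    refine h9.trans ?_
    have h12 : ⌊T⌋₊ + 1 ≤ R / M ^ (k + 1) := by
      rw [Nat.le_div_iff_mul_le (by positivity), hR, mul_comm]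
      apply Nat.mul_le_mul_right
      exact Nat.pow_le_pow_right hMnat (by omega)
    exact_mod_cast h12
  -- delta
  set δ : ℝ := w0 * Z / (C1 * N) with hδ
  have hδ0 : 0 < δ := by positivity
  have hδc : 16 * δ ^ 2 * (600 * ((R : ℝ) * Nat.sqrt N) ^ 2 *
      ((1 + Real.log (2 * (2 * M + 3) ^ 2)) / M)) ≤ (F.real (Set.Iic a)) ^ 2 := by
    have h7 := lam_bound M hM2
    have hsM : 0 < Real.sqrt M := Real.sqrt_pos.2 hMpos
    have h8 : ((R : ℝ) * u) ^ 2 ≤ (C1 * N) ^ 2 := by gcongr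
    have h9 : 0 ≤ (1 + Real.log (2 * (2 * (M : ℝ) + 3) ^ 2)) / M := by
      have h10 : 0 ≤ Real.log (2 * (2 * (M : ℝ) + 3) ^ 2) := by
        apply Real.log_nonneg
        nlinarith
      positivity
    calc 16 * δ ^ 2 * (600 * ((R : ℝ) * u) ^ 2 *
          ((1 + Real.log (2 * (2 * M + 3) ^ 2)) / M))
        ≤ 16 * δ ^ 2 * (600 * (C1 * N) ^ 2 * (9 / Real.sqrt M)) := by
          gcongr
      _ = w0 ^ 2 * (86400 * Z ^ 2 / Real.sqrt M) := by
          rw [hδ]
          field_simp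
          ring
      _ ≤ w0 ^ 2 * 1 := by
          apply mul_le_mul_of_nonneg_left _ (by positivity)
          rw [div_le_one hsM]
          exact hMZ
      _ = (F.real (Set.Iic a)) ^ 2 := by rw [mul_one]
  have hδN : δ * (c * ((N : ℝ) / 4)) = c * w0 * Z / (4 * C1) := by
    rw [hδ]; field_simp
  have hδh : 8 ≤ δ * (c * ((N : ℝ) / 4)) := by rw [hδN]; exact hZ2
  have hcore := core_n F hpos a b c C' hab ha hb hc N (by omega) M hM2 R
    (Dvd.intro _ rfl) hcond1 hcond2 h4 h5 hlog h2' δ hδ0 hδc hδh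
  have hcheb := cheb_var (Measure.pi (fun _ : TEdge 2 N => F)) (loopTime 2 N)
    (memLp_loopTime n F hpos h2) ((b - a) * (δ * (c * ((N : ℝ) / 4)) / 2)) κ
    (by
      have : 0 < b - a := sub_pos.2 hab
      positivity) hκpos hκ1 (fun x hx => hcore x hx)
  refine hZ3.trans (le_trans (le_of_eq ?_) hcheb)
  rw [hδN, hq]
  ring

end Pool.Agent.Lib_helper9.FPP
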