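import Pool.Agent.Lib_helper9.FPP.MIX
import Pool.Agent.Lib_helper59.FPP.GEO1
import Pool.Agent.Lib_helper59.FPP.CG2
import Pool.Agent.Lib_helper74.FPP.GEO2
import Pool.Agent.Lib_helper89.FPP.LOOP
import Pool.Agent.Lib_helper89.FPP.CG
import Pool.Agent.Lib_helper38.FPP.HV1
import Pool.Agent.Lib_helper38.FPP.CHEB
import Pool.Agent.Lib_helper11.FPP.LLN
import Pool.Agent.Lib_helper11.FPP.L2

/-! # The blocks of the proof, under their official names -/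

set_option autoImplicit false

open MeasureTheory ProbabilityTheory
open scoped BigOperators

namespace Pool.Agent.Lib_helper9.FPP

/-! ## Block FIN (finite core, section 1 of the blueprint) -/

section FIN
variable {I Lam ι : Type*} [Fintype I] [DecidableEq I] [Fintype Lam] [DecidableEq Lam]

/-- FIN-ML. -/
theorem fin_ML {z : Lam} (LS : LoopSys I Lam ι z) (w : Lam → ℝ) (hw : ∀ a, 0 ≤ w a)
    (hw1 : ∑ a, w a = 1) (hz : 0 < w z) (δ : ℝ) (hδ0 : 0 < δ) (hδ1 : δ < 1)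
    (J : Finset (Finset I)) (A B : Finset (I → Lam)) (hAJ : ∀ lam ∈ A, LS.tube (LS.G lam) ∈ J)
    (K0 : ℝ) (hK0 : 0 < K0) :
    ∑ lam ∈ A, Wt w lam * ∑ lam' ∈ B, Ker z δ (LS.tube (LS.G lam)) lam lam' ≤
      K0 * ∑ lam' ∈ B, Wt w lam' +
        ∑ S ∈ J, ∑ lam' : I → Lam, (if K0 < Lw w z δ S lam' then Wt w lam' * Lw w z δ S lam' else 0) :=
  fin_ML_proof LS w hw hw1 hz δ hδ0 hδ1 J A B hAJ K0 hK0

/-- FIN-MOM. -/
theorem fin_MOM (z : Lam) (w : Lam → ℝ) (hw : ∀ a, 0 ≤ w a)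
    (hw1 : ∑ a, w a = 1) (hz : 0 < w z) (δ : ℝ) (hδ0 : 0 < δ)
    (J : Finset (Finset I)) (Smax H : ℝ) (hH1 : 1 ≤ H) (hHS : H ≤ Smax)
    (hJ : (J.card : ℝ) ≤ Real.exp H) (hS : ∀ S ∈ J, (S.card : ℝ) ≤ Smax)
    (hδ : 16 * δ ^ 2 * Smax * H ≤ (w z) ^ 2) :
    ∑ S ∈ J, ∑ lam' : I → Lam,
      (if Real.exp 10 < Lw w z δ S lam' then Wt w lam' * Lw w z δ S lam' else 0) ≤
        Real.exp (-8) :=
  fin_MOM_proof z w hw hw1 hz δ hδ0 J Smax H hH1 hHS hJ hS hδ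

/-- FIN-BIN: total mass of the kernel and lower tail of the number of modified coordinates. -/
theorem fin_BIN (z : Lam) (δ : ℝ) (hδ0 : 0 < δ) (hδ1 : δ ≤ 1) (S D : Finset I) (hD : D ⊆ S)
    (h : ℝ) (hDh : h ≤ (D.card : ℝ)) (hh : 8 ≤ δ * h) (lam : I → Lam) :
    (∑ lam' : I → Lam, Ker z δ S lam lam' = 1) ∧
    ∑ lam' : I → Lam, (if ((D.filter (fun i => lam' i = z)).card : ℝ) < δ * h / 2 then
      Ker z δ S lam lam' else 0) ≤ 1 / 2 :=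
  fin_BIN_proof z δ hδ0 hδ1 S D hD h hDh hh lam

/-- FIN-CORE (from FIN-ML, FIN-MOM, FIN-BIN). -/
theorem fin_core {z : Lam} (LS : LoopSys I Lam ι z) (w : Lam → ℝ) (hw : ∀ a, 0 ≤ w a)
    (hw1 : ∑ a, w a = 1) (hz : 0 < w z) (δ : ℝ) (hδ0 : 0 < δ)
    (J : Finset (Finset I)) (Smax H : ℝ) (hH1 : 1 ≤ H) (hHS : H ≤ Smax)
    (hJ : (J.card : ℝ) ≤ Real.exp H) (hS : ∀ S ∈ J, (S.card : ℝ) ≤ Smax)
    (hδ : 16 * δ ^ 2 * Smax * H ≤ (w z) ^ 2)
    (A : Finset (I → Lam)) (x g h : ℝ) (hg : 0 ≤ g) (hh : 8 ≤ δ * h)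
    (hAJ : ∀ lam ∈ A, LS.tube (LS.G lam) ∈ J)
    (hAx : ∀ lam ∈ A, LS.c (LS.G lam) lam ≤ x)
    (hAD : ∀ lam ∈ A, ∃ D : Finset I, D ⊆ LS.tube (LS.G lam) ∧ h ≤ (D.card : ℝ) ∧
      ∀ lam' : I → Lam, (∀ i, lam' i = lam i ∨ (i ∈ LS.tube (LS.G lam) ∧ lam' i = z)) →
        LS.c (LS.G lam') lam' ≤
          LS.c (LS.G lam) lam - g * ((D.filter (fun i => lam' i = z)).card : ℝ)) :
    (1 / 2) * ∑ lam ∈ A, Wt w lam ≤
      Real.exp 10 * ∑ lam ∈ (Finset.univ : Finset (I → Lam)).filter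
          (fun lam => LS.c (LS.G lam) lam ≤ x - g * (δ * h / 2)), Wt w lam + Real.exp (-8) :=
  fin_core_proof LS w hw hw1 hz δ hδ0 J Smax H hH1 hHS hJ hS hδ A x g h hg hh hAJ hAx hAD

end FIN

/-! ## Block MIX (section 2): from the finite core to a general product measure -/

section MIX
variable {E ι : Type*} [Fintype E] [DecidableEq E] [Fintype ι]

/-- MIX. -/
theorem mix_core (LS : LoopSysR E ι) (F : Measure ℝ) [IsProbabilityMeasure F] (a : ℝ)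
    (ha : 0 < F (Set.Iic a)) (δ : ℝ) (hδ0 : 0 < δ)
    (J : Finset (Finset E)) (Smax H : ℝ) (hH1 : 1 ≤ H) (hHS : H ≤ Smax)
    (hJ : (J.card : ℝ) ≤ Real.exp H) (hS : ∀ S ∈ J, (S.card : ℝ) ≤ Smax)
    (hδ : 16 * δ ^ 2 * Smax * H ≤ (F.real (Set.Iic a)) ^ 2)
    (A : Set (E → ℝ)) (hA : MeasurableSet A) (x g h : ℝ) (hg : 0 ≤ g) (hh : 8 ≤ δ * h)
    (hAJ : ∀ t ∈ A, LS.tube (LS.G t) ∈ J)
    (hAx : ∀ t ∈ A, LS.c (LS.G t) t ≤ x)
    (hAD : ∀ t ∈ A, ∃ D : Finset E, D ⊆ LS.tube (LS.G t) ∧ h ≤ (D.card : ℝ) ∧ (∀ e ∈ D, a < t e) ∧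
      ∀ t' : E → ℝ, (∀ e, t' e = t e ∨ (e ∈ LS.tube (LS.G t) ∧ t' e ≤ a ∧ t' e ≤ t e)) →
        LS.c (LS.G t') t' ≤ LS.c (LS.G t) t - g * ((D.filter (fun e => t' e ≤ a)).card : ℝ)) :
    (1 / 2) * (Measure.pi (fun _ : E => F)).real A ≤
      Real.exp 10 * (Measure.pi (fun _ : E => F)).real
        {t | LS.c (LS.G t) t ≤ x - g * (δ * h / 2)} + Real.exp (-8) :=
  mix_core_proof LS F a ha δ hδ0 J Smax H hH1 hHS hJ hS hδ A hA x g h hg hh hAJ hAx hAD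

end MIX

/-! ## Block GEO1 (section 3, energy pigeonhole) -/

/-- GEO1: for every sequence with jumps at most `u`, at most `2 M^3` scales are not flat. -/
theorem geo_flat (M : ℕ) (hM : 2 ≤ M) (u : ℕ) (hu : 1 ≤ u) (K R : ℕ) (hR : M ^ K ∣ R)
    (p : ℕ → Fin 2 → ℤ) (hp : Lip u p) (S : Finset ℕ)
    (hS : ∀ k ∈ S, k < K ∧ ¬ FlatScale M R k u p) : S.card ≤ 2 * M ^ 3 :=
  geo_flat_proof M hM u hu K R hR p hp S hS

/-! ## Block GEO2 (section 3, the tubes) -/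

/-- GEO2: tubes at scale `k`. -/
theorem geo_tube (M : ℕ) (hM : 2 ≤ M) (u : ℕ) (hu : 1 ≤ u) (n R k : ℕ) [NeZero n]
    (hR : M ^ (k + 1) ∣ R) :
    ∃ (tube : (ℕ → Fin 2 → ℤ) → Finset (TEdge 2 n)) (J : Finset (Finset (TEdge 2 n))),
      (∀ p, Lip u p → ∀ j < R, ∀ y : Fin 2 → ℤ, (∀ α, |y α - p j α| ≤ (u : ℤ)) → ∀ i : Fin 2,
        (((fun α => ((y α : ℤ) : ZMod n)), i) : TEdge 2 n) ∈ tube p) ∧
      (∀ p, Lip u p → (∀ α, 0 ≤ p 0 α ∧ p 0 α < (n : ℤ)) → FlatScale M R k u p → tube p ∈ J) ∧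
      (∀ S ∈ J, S.card ≤ 600 * R * u ^ 2 * M ^ k) ∧
      J.card ≤ (n / (u * M ^ k) + 1) ^ 2 * (2 * (2 * M + 3) ^ 2) ^ (R / M ^ (k + 1)) :=
  geo_tube_proof M hM u hu n R k hR

/-! ## Block LOOP (section 4) -/

/-- LOOP1 (loop erasure). -/
theorem loop_erase {d n : ℕ} (t : TEdge d n → ℝ) (ht : ∀ e, 0 ≤ t e) (x : Fin d → ℤ)
    (l : List (Step d)) :
    ∃ l' : List (Step d), SAW x l' ∧ endpt x l' = endpt x l ∧ cost t x l' ≤ cost t x l :=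
  loop_erase_proof t ht x l

/-- LOOP2 (translation by a multiple of `n`). -/
theorem walkEdges_shift {d : ℕ} (n : ℕ) (x v : Fin d → ℤ) (l : List (Step d)) :
    walkEdges n (x + (n : ℤ) • v) l = walkEdges n x l :=
  walkEdges_shift_proof n x v l

theorem endpt_add {d : ℕ} (x v : Fin d → ℤ) (l : List (Step d)) :
    endpt (x + v) l = endpt x l + v :=
  endpt_add_proof x v l

theorem SAW_shift {d : ℕ} (x v : Fin d → ℤ) (l : List (Step d)) : SAW (x + v) l ↔ SAW x l :=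
  SAW_shift_proof x v l

/-- LOOP3 (two-dimensional finiteness): only finitely many self-avoiding walks start in a given
finite set and stay at bounded distance. -/
theorem finite_saw (x : Fin 2 → ℤ) (r : ℕ) :
    {l : List (Step 2) | SAW x l ∧ ∀ j α, |pos x l j α - x α| ≤ (r : ℤ)}.Finite :=
  finite_saw_proof x r

/-! ## Block CG (coarse graining of a walk at scale `u`) -/

/-- CG. Every walk `(x, l)` has a sequence `p` of anchors (jumps at most `u`, constant from index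
`m` on, `p 0 = x`), all edges and all positions of the walk are within distance `u` of an anchor,
and each of the `m` jumps costs at least `b c u` on the complement of the bad event (`u = √n`). -/
theorem coarse (n : ℕ) (x : Fin 2 → ℤ) (l : List (Step 2)) (u : ℕ) (hu : 1 ≤ u) :
    ∃ (p : ℕ → Fin 2 → ℤ) (m : ℕ), p 0 = x ∧ Lip u p ∧ (∀ j, m ≤ j → p j = p m) ∧
      (∀ e ∈ walkEdges n x l, ∃ j ≤ m, ∃ y : Fin 2 → ℤ, (∀ α, |y α - p j α| ≤ (u : ℤ)) ∧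
        ∃ i : Fin 2, e = ((fun α => ((y α : ℤ) : ZMod n)), i)) ∧
      (∀ i, ∃ j ≤ m, ∀ α, |pos x l i α - p j α| ≤ (u : ℤ)) ∧
      (u = Nat.sqrt n → SAW x l → ∀ (b c : ℝ) (t : TEdge 2 n → ℝ), 0 ≤ b → 0 ≤ c →
        (∀ e, 0 ≤ t e) → t ∉ Bad n b c → (m : ℝ) * (b * c * u) ≤ cost t x l) :=
  coarse_proof n x l u hu

/-- CG2 (many distinct heavy edges). -/
theorem many_heavy (n : ℕ) (hn : 100 ≤ n) (b c : ℝ) (hc : 0 ≤ c) (t : TEdge 2 n → ℝ)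
    (hbad : t ∉ Bad n b c) (x : Fin 2 → ℤ) (l : List (Step 2)) (hs : SAW x l)
    (hl : endpt x l = x + Pi.single 0 (n : ℤ)) :
    ∃ D : Finset (TEdge 2 n), (∀ e ∈ D, e ∈ walkEdges n x l ∧ b ≤ t e) ∧
      c * ((n : ℝ) / 4) ≤ (D.card : ℝ) :=
  many_heavy_proof n hn b c hc t hbad x l hs hl

/-! ## Block HV1 (section 6): path counting -/

/-- HV1. -/
theorem heavy_of_third (F : Measure ℝ) [IsProbabilityMeasure F] (b : ℝ)
    (hq : F.real (Set.Iio b) < 1 / 3) :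
    ∃ c : ℝ, 0 < c ∧ c ≤ 1 ∧
      Filter.Tendsto (fun n : ℕ => (Measure.pi (fun _ : TEdge 2 (n + 1) => F)) (Bad (n + 1) b c))
        Filter.atTop (nhds 0) :=
  heavy_of_third_proof F b hq

/-! ## Block LLN (section 4): the straight walk -/

/-- LLN. -/
theorem straight_cost (F : Measure ℝ) [IsProbabilityMeasure F] (hpos : F (Set.Iio 0) = 0)
    (h2 : Integrable (fun y : ℝ => y ^ 2) F) :
    ∃ C' : ℝ, 0 < C' ∧
      Filter.Tendsto (fun n : ℕ => (Measure.pi (fun _ : TEdge 2 (n + 1) => F))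
          {t | C' * ((n + 1 : ℕ) : ℝ) < cost t (0 : Fin 2 → ℤ) (straight (n + 1))})
        Filter.atTop (nhds 0) :=
  straight_cost_proof F hpos h2

/-! ## Block L2: measurability and square integrability of the passage time -/

/-- L2a. -/
theorem measurable_loopTime (d n : ℕ) [NeZero d] : Measurable (loopTime d n) :=
  measurable_loopTime_proof d n

/-- L2b. -/
theorem memLp_loopTime (n : ℕ) (F : Measure ℝ) [IsProbabilityMeasure F]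
    (hpos : F (Set.Iio 0) = 0) (h2 : Integrable (fun y : ℝ => y ^ 2) F) :
    MemLp (loopTime 2 (n + 1)) 2 (Measure.pi (fun _ : TEdge 2 (n + 1) => F)) :=
  memLp_loopTime_proof n F hpos h2

/-! ## Block CHEB: from anti-concentration to the variance -/

/-- CHEB. If `X` is in `L²`, and for every `x` with `P(X ≤ x) ≥ 3/4` one has `P(X ≤ x - s) ≥ κ`,
then `Var X ≥ κ s² / 16` (for `0 < κ ≤ 1`, `s ≥ 0`). -/
theorem cheb_var {Ω : Type*} [MeasurableSpace Ω] (P : Measure Ω) [IsProbabilityMeasure P]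
    (X : Ω → ℝ) (hX : MemLp X 2 P) (s κ : ℝ) (hs : 0 ≤ s) (hκ : 0 < κ) (hκ1 : κ ≤ 1)
    (h : ∀ x : ℝ, 3 / 4 ≤ P.real {ω | X ω ≤ x} → κ ≤ P.real {ω | X ω ≤ x - s}) :
    κ * s ^ 2 / 16 ≤ variance X P :=
  cheb_var_proof P X hX s κ hs hκ hκ1 h

end Pool.Agent.Lib_helper9.FPP
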