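import Mathlib

/-! # First-passage percolation on the torus: definitions

Torus `(ℤ/n)^d`, undirected nearest-neighbour edges, weights `t`, lattice walks in `ℤ^d` with the
periodic weights, and the minimal passage time of a closed path of winding number one in the first
coordinate direction.
-/

set_option autoImplicit false

namespace Pool.Agent.Lib_helper9.FPP

/-- Undirected edges of the torus `(ℤ/n)^d`: the pair `(v, i)` is the edge joining the vertex `v`
to `v + e_i`. -/
abbrev TEdge (d n : ℕ) := (Fin d → ZMod n) × Fin d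

/-- A lattice step: a direction and a sign (`true` is `+`). -/
abbrev Step (d : ℕ) := Fin d × Bool

/-- The displacement of a step. -/
def stepVec {d : ℕ} (s : Step d) : Fin d → ℤ := if s.2 then Pi.single s.1 1 else Pi.single s.1 (-1)

/-- The base vertex (in `ℤ^d`) of the undirected edge traversed by the step `s` from `x`. -/
def stepBase {d : ℕ} (x : Fin d → ℤ) (s : Step d) : Fin d → ℤ := if s.2 then x else x + stepVec s

/-- The torus edge traversed by the step `s` from (the projection of) `x`. -/
def edgeOf (n : ℕ) {d : ℕ} (x : Fin d → ℤ) (s : Step d) : TEdge d n :=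
  (fun i => ((stepBase x s i : ℤ) : ZMod n), s.1)

/-- End point of the walk with start `x` and list of steps `l`. -/
def endpt {d : ℕ} (x : Fin d → ℤ) : List (Step d) → (Fin d → ℤ)
  | [] => x
  | s :: l => endpt (x + stepVec s) l

/-- List of the torus edges traversed by the walk. -/
def walkEdges (n : ℕ) {d : ℕ} (x : Fin d → ℤ) : List (Step d) → List (TEdge d n)
  | [] => []
  | s :: l => edgeOf n x s :: walkEdges n (x + stepVec s) l

/-- Passage time of the walk (edges counted with multiplicity). -/
def cost {d n : ℕ} (t : TEdge d n → ℝ) (x : Fin d → ℤ) (l : List (Step d)) : ℝ :=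
  ((walkEdges n x l).map t).sum

/-- `T(Γ_n)`: the minimal passage time of a closed path of the torus `(ℤ/n)^d` of winding number
one in the first coordinate direction, that is, of (the projection of) a walk of `ℤ^d` running from
some vertex `x` to `x + n e_1`. -/
noncomputable def loopTime (d n : ℕ) [NeZero d] (t : TEdge d n → ℝ) : ℝ :=
  sInf {c : ℝ | ∃ (x : Fin d → ℤ) (l : List (Step d)),
    endpt x l = x + Pi.single 0 (n : ℤ) ∧ cost t x l = c}

/-- Position after `j` steps (constant after the end of the walk). -/
def pos {d : ℕ} (x : Fin d → ℤ) (l : List (Step d)) (j : ℕ) : Fin d → ℤ := endpt x (l.take j)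

/-- The walk is self-avoiding in the lift `ℤ^d`. -/
def SAW {d : ℕ} (x : Fin d → ℤ) (l : List (Step d)) : Prop :=
  ∀ i j : ℕ, i ≤ l.length → j ≤ l.length → pos x l i = pos x l j → i = j

/-- Number of steps of the walk with weight at least `b`. -/
noncomputable def heavyCount {d n : ℕ} (b : ℝ) (t : TEdge d n → ℝ) (x : Fin d → ℤ)
    (l : List (Step d)) : ℕ := by
  classical exact ((walkEdges n x l).countP (fun e => decide (b ≤ t e)))

/-- The bad event: some self-avoiding walk whose end point is at sup-distance at least `√n`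
(integer square root) from its starting point has fewer than `c * √n` steps of weight at least
`b`. -/
def Bad (n : ℕ) (b c : ℝ) : Set (TEdge 2 n → ℝ) :=
  {t | ∃ (x : Fin 2 → ℤ) (l : List (Step 2)), SAW x l ∧
    (∃ α : Fin 2, (Nat.sqrt n : ℤ) ≤ |endpt x l α - x α|) ∧
    (heavyCount b t x l : ℝ) < c * (Nat.sqrt n : ℝ)}

/-- The straight walk of `n` steps in direction `e_1` starting at the origin. -/
def straight (n : ℕ) : List (Step 2) := List.replicate n (0, true)

/-- `p` is a sequence of lattice points with jumps at most `u` in sup-distance. -/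
def Lip (u : ℕ) (p : ℕ → Fin 2 → ℤ) : Prop := ∀ j α, |p (j + 1) α - p j α| ≤ (u : ℤ)

/-- piece number `i` of length `M^(k+1)` of the sequence `p` (unit `u`) is not flat: one of its `M`
intermediate points (at times multiples of `M^k`) is at sup-distance more than `u M^k` from the
linear interpolation. -/
def NonFlat (M k u : ℕ) (p : ℕ → Fin 2 → ℤ) (i : ℕ) : Prop :=
  ∃ j ≤ M, ∃ α : Fin 2,
    ((M : ℤ) * ((u : ℤ) * M ^ k)) <
      |(M : ℤ) * (p (i * M ^ (k + 1) + j * M ^ k) α - p (i * M ^ (k + 1)) α)
        - (j : ℤ) * (p ((i + 1) * M ^ (k + 1)) α - p (i * M ^ (k + 1)) α)|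

/-- The scale `k` is flat for the sequence (horizon `R`): at most a fraction `1/M` of the
`R / M^(k+1)` pieces is non-flat. -/
def FlatScale (M R k u : ℕ) (p : ℕ → Fin 2 → ℤ) : Prop := by
  classical exact
    M * ((Finset.range (R / M ^ (k + 1))).filter (fun i => NonFlat M k u p i)).card
      ≤ R / M ^ (k + 1)

/-! ### The abstract finite core -/

/-- Product weight. -/
def Wt {I Lam : Type*} [Fintype I] (w : Lam → ℝ) (lam : I → Lam) : ℝ := ∏ i, w (lam i)

/-- A finite family of loops with costs depending on labels `Lam`; the label `z` is the cheapest. -/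
structure LoopSys (I Lam ι : Type*) (z : Lam) where
  c : ι → (I → Lam) → ℝ
  tube : ι → Finset I
  mono : ∀ g lam lam', (∀ i ∈ tube g, lam i = lam' i ∨ lam i = z) → c g lam ≤ c g lam'
  G : (I → Lam) → ι
  ord : ι → ℕ
  ord_inj : Function.Injective ord
  G_min : ∀ lam g, c (G lam) lam ≤ c g lam
  G_first : ∀ lam g, c g lam ≤ c (G lam) lam → ord (G lam) ≤ ord g

/-- Kernel: every coordinate of `S` is set to `z` with probability `δ`, independently. -/
def Ker {I Lam : Type*} [Fintype I] [DecidableEq I] [DecidableEq Lam] (z : Lam) (δ : ℝ)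
    (S : Finset I) (lam lam' : I → Lam) : ℝ :=
  ∏ i, if i ∈ S then (if lam' i = lam i then 1 - δ else 0) + (if lam' i = z then δ else 0)
    else (if lam' i = lam i then 1 else 0)

/-- Density of the law of the modified configuration (modification on `S`). -/
noncomputable def Lw {I Lam : Type*} [DecidableEq Lam] (w : Lam → ℝ) (z : Lam) (δ : ℝ)
    (S : Finset I) (lam' : I → Lam) : ℝ :=
  ∏ i ∈ S, if lam' i = z then 1 - δ + δ / w z else 1 - δ

/-- The same with real weights. -/
structure LoopSysR (E ι : Type*) where
  c : ι → (E → ℝ) → ℝ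
  tube : ι → Finset E
  mono : ∀ g t t', (∀ e ∈ tube g, t e ≤ t' e) → c g t ≤ c g t'
  meas : ∀ g, Measurable (c g)
  G : (E → ℝ) → ι
  ord : ι → ℕ
  ord_inj : Function.Injective ord
  G_min : ∀ t g, c (G t) t ≤ c g t
  G_first : ∀ t g, c g t ≤ c (G t) t → ord (G t) ≤ ord g

end Pool.Agent.Lib_helper9.FPP
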