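import Pool.Agent.Lib_helper63.FPP.ML
import Pool.Agent.Lib_helper63.FPP.MOM
import Pool.Agent.Lib_helper21.FPP.BIN

/-! # Block FIN-CORE of MP_a5a93b_pr (from fin_ML, fin_MOM, fin_BIN) -/

set_option autoImplicit false

open scoped BigOperators

namespace Pool.Agent.Lib_helper9.FPP

section FIN
variable {I Lam ι : Type*} [Fintype I] [DecidableEq I] [Fintype Lam] [DecidableEq Lam]

omit [Fintype Lam] in
private theorem Ker_ne_zero (z : Lam) (δ : ℝ) (S : Finset I) (lam lam' : I → Lam)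
    (h : Ker z δ S lam lam' ≠ 0) : ∀ i, lam' i = lam i ∨ (i ∈ S ∧ lam' i = z) := by
  intro i
  by_contra hcon
  push Not at hcon
  obtain ⟨h1, h2⟩ := hcon
  apply h
  unfold Ker
  apply Finset.prod_eq_zero (Finset.mem_univ i)
  by_cases hi : i ∈ S
  · simp [hi, h1, h2 hi]
  · simp [hi, h1]

/-- FIN-CORE (from FIN-ML, FIN-MOM, FIN-BIN). -/
theorem fin_core_proof {z : Lam} (LS : LoopSys I Lam ι z) (w : Lam → ℝ) (hw : ∀ a, 0 ≤ w a)
    (hw1 : ∑ a, w a = 1) (hz : 0 < w z) (δ : ℝ) (hδ0 : 0 < δ)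
    (J : Finset (Finset I)) (Smax H : ℝ) (hH1 : 1 ≤ H) (hHS : H ≤ Smax)
    (hJ : (J.card : ℝ) ≤ Real.exp H) (hS : ∀ S ∈ J, (S.card : ℝ) ≤ Smax)
    (hδ : 16 * δ ^ 2 * Smax * H ≤ (w z) ^ 2)
    (A : Finset (I → Lam)) (x g h : ℝ) (hg : 0 ≤ g) (hh : 8 ≤ δ * h)
    (hAJ : ∀ lam ∈ A, LS.tube (LS.G lam) ∈ J)
    (hAx : ∀ lam ∈ A, LS.c (LS.G lam) lam ≤ x)
    (hAD : ∀ lam ∈ A, ∃ D : Finset I, D ⊆ LS.tube (LS.G lam) ∧ h ≤ (D.card : ℝ) ∧
      ∀ lam' : I → Lam, (∀ i, lam' i = lam i ∨ (i ∈ LS.tube (LS.G lam) ∧ lam' i = z)) →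
        LS.c (LS.G lam') lam' ≤
          LS.c (LS.G lam) lam - g * ((D.filter (fun i => lam' i = z)).card : ℝ)) :
    (1 / 2) * ∑ lam ∈ A, Wt w lam ≤
      Real.exp 10 * ∑ lam ∈ (Finset.univ : Finset (I → Lam)).filter
          (fun lam => LS.c (LS.G lam) lam ≤ x - g * (δ * h / 2)), Wt w lam + Real.exp (-8) := by
  have hwz1 : w z ≤ 1 := by
    rw [← hw1]
    exact Finset.single_le_sum (fun a _ => hw a) (Finset.mem_univ z)
  have hδ1 : δ < 1 := by
    by_contra hcon
    push Not at hcon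
    have h1 : 1 ≤ δ ^ 2 := one_le_pow₀ hcon
    have h2 : 1 ≤ Smax := hH1.trans hHS
    have h3 : (w z) ^ 2 ≤ 1 := pow_le_one₀ hz.le hwz1
    have h4 : 1 ≤ δ ^ 2 * Smax * H := by
      have : 1 ≤ δ ^ 2 * Smax := one_le_mul_of_one_le_of_one_le h1 h2
      exact one_le_mul_of_one_le_of_one_le this hH1
    nlinarith
  set B : Finset (I → Lam) := (Finset.univ : Finset (I → Lam)).filter
          (fun lam => LS.c (LS.G lam) lam ≤ x - g * (δ * h / 2)) with hB
  have hWt : ∀ lam : I → Lam, 0 ≤ Wt w lam := fun lam => Finset.prod_nonneg (fun i _ => hw _)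
  have hML := fin_ML_proof LS w hw hw1 hz δ hδ0 hδ1 J A B hAJ (Real.exp 10) (Real.exp_pos _)
  have hMOM := fin_MOM_proof z w hw hw1 hz δ hδ0 J Smax H hH1 hHS hJ hS hδ
  have hlow : (1 / 2) * ∑ lam ∈ A, Wt w lam ≤
      ∑ lam ∈ A, Wt w lam * ∑ lam' ∈ B, Ker z δ (LS.tube (LS.G lam)) lam lam' := by
    rw [Finset.mul_sum]
    apply Finset.sum_le_sum
    intro lam hlam
    obtain ⟨D, hDS, hDh, hD⟩ := hAD lam hlam
    have hbin := fin_BIN_proof z δ hδ0 hδ1.le (LS.tube (LS.G lam)) D hDS h hDh hh lam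
    have hcore : 1 / 2 ≤ ∑ lam' ∈ B, Ker z δ (LS.tube (LS.G lam)) lam lam' := by
      have hsplit : ∑ lam' : I → Lam, Ker z δ (LS.tube (LS.G lam)) lam lam' ≤
          ∑ lam' ∈ B, Ker z δ (LS.tube (LS.G lam)) lam lam' +
          ∑ lam' : I → Lam, (if ((D.filter (fun i => lam' i = z)).card : ℝ) < δ * h / 2 then
            Ker z δ (LS.tube (LS.G lam)) lam lam' else 0) := by
        rw [hB, Finset.sum_filter, ← Finset.sum_add_distrib]
        apply Finset.sum_le_sum
        intro lam' _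
        by_cases hk : Ker z δ (LS.tube (LS.G lam)) lam lam' = 0
        · simp [hk]
        · have hmod := Ker_ne_zero z δ _ lam lam' hk
          have hcost := hD lam' hmod
          have hx := hAx lam hlam
          have hkn : 0 ≤ Ker z δ (LS.tube (LS.G lam)) lam lam' := by
            unfold Ker
            apply Finset.prod_nonneg
            intro i _
            split_ifs <;> linarith
          by_cases hN : ((D.filter (fun i => lam' i = z)).card : ℝ) < δ * h / 2
          · rw [if_pos hN]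
            split_ifs <;> linarith
          · have hin : LS.c (LS.G lam') lam' ≤ x - g * (δ * h / 2) := by
              push Not at hN
              have := mul_le_mul_of_nonneg_left hN hg
              linarith
            rw [if_pos hin, if_neg hN, add_zero]
      rw [hbin.1] at hsplit
      linarith [hbin.2]
    calc 1 / 2 * Wt w lam = Wt w lam * (1 / 2) := by ring
      _ ≤ _ := mul_le_mul_of_nonneg_left hcore (hWt lam)
  linarith

end FIN

end Pool.Agent.Lib_helper9.FPP
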