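import Pool.Agent.Lib_helper9.FPP.FINCORE

/-! # Block MIX of MP_a5a93b_pr -/

set_option autoImplicit false

open MeasureTheory ProbabilityTheory
open scoped BigOperators

namespace Pool.Agent.Lib_helper9.FPP

namespace Mix

/-- The two halves of the line: light (`true`) and not light (`false`). -/
def side (a : ℝ) (b : Bool) : Set ℝ := if b then Set.Iic a else Set.Ioi a

lemma measurableSet_side (a : ℝ) (b : Bool) : MeasurableSet (side a b) := by
  unfold side
  split_ifs
  · exact measurableSet_Iic
  · exact measurableSet_Ioi

/-- The configuration with labels `lam` and value pairs `v`. -/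
def Tv {E : Type*} (lam : E → Bool) (v : E → ℝ × ℝ) : E → ℝ :=
  fun e => if lam e then (v e).1 else (v e).2

lemma measurable_Tv {E : Type*} (lam : E → Bool) : Measurable (Tv lam) := by
  refine measurable_pi_lambda _ (fun e => ?_)
  unfold Tv
  split_ifs
  · exact (measurable_pi_apply e).fst
  · exact (measurable_pi_apply e).snd

section
variable {E : Type*} [Fintype E]

lemma pi_restrict_side (F : Measure ℝ) [IsProbabilityMeasure F] (a : ℝ)
    (hpos : ∀ b, F (side a b) ≠ 0) (lam : E → Bool) :
    Measure.pi (fun e => F.restrict (side a (lam e))) =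
      (∏ e, F (side a (lam e))) •
        Measure.pi (fun e => ProbabilityTheory.cond F (side a (lam e))) := by
  have hp : ∀ b, IsProbabilityMeasure (ProbabilityTheory.cond F (side a b)) :=
    fun b => cond_isProbabilityMeasure (hpos b)
  refine Measure.pi_eq (fun s hs => ?_)
  rw [Measure.smul_apply, smul_eq_mul, Measure.pi_pi, ← Finset.prod_mul_distrib]
  refine Finset.prod_congr rfl (fun e _ => ?_)
  rw [cond_apply (measurableSet_side a _), Measure.restrict_apply (hs e), ← mul_assoc,
    ENNReal.mul_inv_cancel (hpos _) (measure_ne_top _ _), one_mul, Set.inter_comm]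

lemma map_Tv (F : Measure ℝ) [IsProbabilityMeasure F] (a : ℝ)
    (hpos : ∀ b, F (side a b) ≠ 0) (lam : E → Bool) :
    (Measure.pi (fun _ : E => (ProbabilityTheory.cond F (side a true)).prod
      (ProbabilityTheory.cond F (side a false)))).map (Tv lam) =
      Measure.pi (fun e => ProbabilityTheory.cond F (side a (lam e))) := by
  have hp : ∀ b, IsProbabilityMeasure (ProbabilityTheory.cond F (side a b)) :=
    fun b => cond_isProbabilityMeasure (hpos b)
  have hp1 := hp true
  have hp2 := hp false
  set f : (e : E) → ℝ × ℝ → ℝ := fun e p => if lam e then p.1 else p.2 with hf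
  have hmeas : ∀ e, Measurable (f e) := by
    intro e
    rw [hf]
    dsimp only
    split_ifs
    · exact measurable_fst
    · exact measurable_snd
  have h1 : ∀ e, ((ProbabilityTheory.cond F (side a true)).prod
      (ProbabilityTheory.cond F (side a false))).map (f e) =
      ProbabilityTheory.cond F (side a (lam e)) := by
    intro e
    cases hl : lam e
    · have : f e = Prod.snd := by
        rw [hf]; funext p; simp [hl]
      rw [this, Measure.map_snd_prod]
      simp
    · have : f e = Prod.fst := by
        rw [hf]; funext p; simp [hl]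
      rw [this, Measure.map_fst_prod]
      simp
  have hσ : ∀ e, SigmaFinite (((ProbabilityTheory.cond F (side a true)).prod
      (ProbabilityTheory.cond F (side a false))).map (f e)) := by
    intro e
    rw [h1 e]
    have := hp (lam e)
    infer_instance
  have h2 := Measure.pi_map_pi (μ := fun _ : E => (ProbabilityTheory.cond F (side a true)).prod
      (ProbabilityTheory.cond F (side a false))) (f := f) (fun e => (hmeas e).aemeasurable)
  have h3 : (Tv lam : (E → ℝ × ℝ) → E → ℝ) = (fun x i => f i (x i)) := rfl
  rw [h3, h2]
  congr 1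
  funext e
  exact h1 e

lemma mix_repr [DecidableEq E] (F : Measure ℝ) [IsProbabilityMeasure F] (a : ℝ)
    (hpos : ∀ b, F (side a b) ≠ 0) (B : Set (E → ℝ)) (hB : MeasurableSet B) :
    (Measure.pi (fun _ : E => F)).real B =
      ∑ lam : E → Bool, (∏ e, F.real (side a (lam e))) *
        (Measure.pi (fun _ : E => (ProbabilityTheory.cond F (side a true)).prod
          (ProbabilityTheory.cond F (side a false)))).real {v | Tv lam v ∈ B} := by
  have hp : ∀ b, IsProbabilityMeasure (ProbabilityTheory.cond F (side a b)) :=
    fun b => cond_isProbabilityMeasure (hpos b)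
  have hp1 := hp true
  have hp2 := hp false
  set R : (E → Bool) → Set (E → ℝ) := fun lam => Set.univ.pi (fun e => side a (lam e)) with hR
  have hRm : ∀ lam, MeasurableSet (R lam) := fun lam =>
    MeasurableSet.univ_pi (fun e => measurableSet_side a _)
  have hcov : B = ⋃ lam ∈ (Finset.univ : Finset (E → Bool)), B ∩ R lam := by
    ext t
    simp only [Finset.mem_univ, Set.iUnion_true, Set.mem_iUnion, Set.mem_inter_iff]
    constructor
    · intro ht
      refine ⟨fun e => decide (t e ≤ a), ht, ?_⟩
      intro e _
      by_cases h : t e ≤ a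
      · simp [side, h]
      · simp [side, h, not_le.1 h]
    · rintro ⟨lam, h, -⟩
      exact h
  have hdisj : Set.PairwiseDisjoint (↑(Finset.univ : Finset (E → Bool)))
      (fun lam => B ∩ R lam) := by
    intro lam _ lam' _ hne
    refine Set.disjoint_left.2 ?_
    rintro t ⟨-, h1⟩ ⟨-, h2⟩
    apply hne
    funext e
    have h1' := h1 e (Set.mem_univ e)
    have h2' := h2 e (Set.mem_univ e)
    cases hl : lam e <;> cases hl' : lam' e <;> simp only [hl, hl', side] at h1' h2' ⊢ <;>
      simp at h1' h2' <;> linarith
  have h0 : (Measure.pi (fun _ : E => F)) B =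
      ∑ lam : E → Bool, (Measure.pi (fun _ : E => F)) (B ∩ R lam) := by
    conv_lhs => rw [hcov]
    exact measure_biUnion_finset hdisj (fun lam _ => hB.inter (hRm lam))
  have h1 : ∀ lam : E → Bool, (Measure.pi (fun _ : E => F)) (B ∩ R lam) =
      (∏ e, F (side a (lam e))) * (Measure.pi (fun _ : E =>
        (ProbabilityTheory.cond F (side a true)).prod
          (ProbabilityTheory.cond F (side a false)))) {v | Tv lam v ∈ B} := by
    intro lam
    rw [← Measure.restrict_apply hB, hR]
    dsimp only
    rw [Measure.restrict_pi_pi, pi_restrict_side F a hpos lam, Measure.smul_apply, smul_eq_mul,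
      ← map_Tv F a hpos lam, Measure.map_apply (measurable_Tv lam) hB]
    rfl
  rw [Measure.real, h0, ENNReal.toReal_sum (fun _ _ => measure_ne_top _ _)]
  refine Finset.sum_congr rfl (fun lam _ => ?_)
  rw [h1 lam, ENNReal.toReal_mul, ENNReal.toReal_prod]
  rfl

end

end Mix

section MIX
variable {E ι : Type*} [Fintype E] [DecidableEq E] [Fintype ι]

/-- MIX. -/
theorem mix_core_proof (LS : LoopSysR E ι) (F : Measure ℝ) [IsProbabilityMeasure F] (a : ℝ)
    (ha : 0 < F (Set.Iic a)) (δ : ℝ) (hδ0 : 0 < δ)
    (J : Finset (Finset E)) (Smax H : ℝ) (hH1 : 1 ≤ H) (hHS : H ≤ Smax)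
    (hJ : (J.card : ℝ) ≤ Real.exp H) (hS : ∀ S ∈ J, (S.card : ℝ) ≤ Smax)
    (hδ : 16 * δ ^ 2 * Smax * H ≤ (F.real (Set.Iic a)) ^ 2)
    (A : Set (E → ℝ)) (hA : MeasurableSet A) (x g h : ℝ) (hg : 0 ≤ g) (hh : 8 ≤ δ * h)
    (hAJ : ∀ t ∈ A, LS.tube (LS.G t) ∈ J)
    (hAx : ∀ t ∈ A, LS.c (LS.G t) t ≤ x)
    (hAD : ∀ t ∈ A, ∃ D : Finset E, D ⊆ LS.tube (LS.G t) ∧ h ≤ (D.card : ℝ) ∧ (∀ e ∈ D, a < t e) ∧
      ∀ t' : E → ℝ, (∀ e, t' e = t e ∨ (e ∈ LS.tube (LS.G t) ∧ t' e ≤ a ∧ t' e ≤ t e)) →
        LS.c (LS.G t') t' ≤ LS.c (LS.G t) t - g * ((D.filter (fun e => t' e ≤ a)).card : ℝ)) :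
    (1 / 2) * (Measure.pi (fun _ : E => F)).real A ≤
      Real.exp 10 * (Measure.pi (fun _ : E => F)).real
        {t | LS.c (LS.G t) t ≤ x - g * (δ * h / 2)} + Real.exp (-8) := by
  classical
  set P := Measure.pi (fun _ : E => F) with hP
  set B2 : Set (E → ℝ) := {t | LS.c (LS.G t) t ≤ x - g * (δ * h / 2)} with hB2
  have hh0 : 0 < h := by
    by_contra hcon
    push Not at hcon
    nlinarith
  have hrhs : 0 ≤ Real.exp 10 * P.real B2 + Real.exp (-8) := by positivity
  by_cases hb : F (Set.Ioi a) = 0
  · -- no heavy edges
    have hPA : P.real A = 0 := by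
      have h0 : P A = 0 := by
        have hsub : A ⊆ ⋃ e : E, {t : E → ℝ | t e ∈ Set.Ioi a} := by
          intro t ht
          obtain ⟨D, -, hDc, hDa, -⟩ := hAD t ht
          have hne : D.Nonempty := by
            rw [← Finset.card_pos]
            by_contra hcon
            have : D.card = 0 := by omega
            rw [this] at hDc
            simp at hDc
            linarith
          obtain ⟨e, he⟩ := hne
          exact Set.mem_iUnion.2 ⟨e, hDa e he⟩
        refine measure_mono_null hsub ?_
        rw [measure_iUnion_null_iff]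
        intro e
        have h1 : {t : E → ℝ | t e ∈ Set.Ioi a} = (fun t : E → ℝ => t e) ⁻¹' (Set.Ioi a) := rfl
        have h2 := (measurePreserving_eval (fun _ : E => F) e).measure_preimage
          (measurableSet_Ioi (a := a)).nullMeasurableSet
        rw [h1]
        exact h2.trans hb
      rw [Measure.real, h0, ENNReal.toReal_zero]
    rw [hPA]
    linarith
  -- general case
  have hpos : ∀ b, F (Mix.side a b) ≠ 0 := by
    intro b
    cases b
    · simpa [Mix.side] using hb
    · simpa [Mix.side] using ha.ne'
  have hp : ∀ b, IsProbabilityMeasure (ProbabilityTheory.cond F (Mix.side a b)) :=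
    fun b => cond_isProbabilityMeasure (hpos b)
  have hp1 := hp true
  have hp2 := hp false
  set w : Bool → ℝ := fun b => F.real (Mix.side a b) with hw
  have hw0 : ∀ b, 0 ≤ w b := fun b => measureReal_nonneg
  have hw1 : ∑ b, w b = 1 := by
    have hc := measureReal_add_measureReal_compl (μ := F) (measurableSet_Iic (a := a))
    rw [Fintype.sum_bool]
    simp only [hw, Mix.side]
    simp only [if_true, Bool.false_eq_true, if_false]
    rw [Set.compl_Iic] at hc
    rw [hc, probReal_univ]
  have hwz : 0 < w true := by
    simp only [hw, Mix.side]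
    simp only [if_true]
    rw [Measure.real]
    exact ENNReal.toReal_pos ha.ne' (measure_ne_top _ _)
  set ν := Measure.pi (fun _ : E => (ProbabilityTheory.cond F (Mix.side a true)).prod
      (ProbabilityTheory.cond F (Mix.side a false))) with hν
  have hB2m : MeasurableSet B2 := by
    have : B2 = ⋃ g' : ι, {t | LS.c g' t ≤ x - g * (δ * h / 2)} := by
      ext t
      simp only [hB2, Set.mem_setOf_eq, Set.mem_iUnion]
      constructor
      · intro ht
        exact ⟨_, ht⟩
      · rintro ⟨g', hg'⟩
        exact le_trans (LS.G_min t g') hg'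
    rw [this]
    exact MeasurableSet.iUnion (fun g' => measurableSet_le (LS.meas g') measurable_const)
  -- integral representation
  have hint : ∀ B : Set (E → ℝ), MeasurableSet B →
      P.real B = ∫ v, ∑ lam : E → Bool, (if Mix.Tv lam v ∈ B then Wt w lam else 0) ∂ν := by
    intro B hB
    rw [hP, Mix.mix_repr F a hpos B hB]
    rw [integral_finsetSum]
    · refine Finset.sum_congr rfl (fun lam _ => ?_)
      have hBm : MeasurableSet {v : E → ℝ × ℝ | Mix.Tv lam v ∈ B} := Mix.measurable_Tv lam hB
      have : (fun v : E → ℝ × ℝ => if Mix.Tv lam v ∈ B then Wt w lam else 0) =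
          Set.indicator {v : E → ℝ × ℝ | Mix.Tv lam v ∈ B} (fun _ => Wt w lam) := by
        funext v
        simp [Set.indicator]
      rw [this, integral_indicator_const _ hBm, smul_eq_mul, mul_comm]
      rfl
    · intro lam _
      have hBm : MeasurableSet {v : E → ℝ × ℝ | Mix.Tv lam v ∈ B} := Mix.measurable_Tv lam hB
      have : (fun v : E → ℝ × ℝ => if Mix.Tv lam v ∈ B then Wt w lam else 0) =
          Set.indicator {v : E → ℝ × ℝ | Mix.Tv lam v ∈ B} (fun _ => Wt w lam) := by
        funext v
        simp [Set.indicator]
      rw [this]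
      exact (integrable_const _).indicator hBm
  have hintg : ∀ B : Set (E → ℝ), MeasurableSet B →
      Integrable (fun v => ∑ lam : E → Bool, (if Mix.Tv lam v ∈ B then Wt w lam else 0)) ν := by
    intro B hB
    refine integrable_finsetSum _ (fun lam _ => ?_)
    have hBm : MeasurableSet {v : E → ℝ × ℝ | Mix.Tv lam v ∈ B} := Mix.measurable_Tv lam hB
    have : (fun v : E → ℝ × ℝ => if Mix.Tv lam v ∈ B then Wt w lam else 0) =
        Set.indicator {v : E → ℝ × ℝ | Mix.Tv lam v ∈ B} (fun _ => Wt w lam) := by
      funext v
      simp [Set.indicator]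
    rw [this]
    exact (integrable_const _).indicator hBm
  -- almost every v is good
  have hgood : ∀ᵐ v ∂ν, ∀ e, (v e).1 ≤ a ∧ a < (v e).2 := by
    rw [ae_all_iff]
    intro e
    have h1 : ∀ᵐ p ∂((ProbabilityTheory.cond F (Mix.side a true)).prod
        (ProbabilityTheory.cond F (Mix.side a false))), p.1 ≤ a ∧ a < p.2 := by
      have hl : ∀ᵐ y ∂(ProbabilityTheory.cond F (Mix.side a true)), y ≤ a := by
        have := ae_cond_mem (μ := F) (Mix.measurableSet_side a true)
        filter_upwards [this] with y hy
        simpa [Mix.side] using hy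
      have hr : ∀ᵐ y ∂(ProbabilityTheory.cond F (Mix.side a false)), a < y := by
        have := ae_cond_mem (μ := F) (Mix.measurableSet_side a false)
        filter_upwards [this] with y hy
        simpa [Mix.side] using hy
      have hl' : ∀ᵐ p ∂((ProbabilityTheory.cond F (Mix.side a true)).prod
        (ProbabilityTheory.cond F (Mix.side a false))), p.1 ≤ a :=
        Measure.quasiMeasurePreserving_fst.ae hl
      have hr' : ∀ᵐ p ∂((ProbabilityTheory.cond F (Mix.side a true)).prod
        (ProbabilityTheory.cond F (Mix.side a false))), a < p.2 :=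
        Measure.quasiMeasurePreserving_snd.ae hr
      filter_upwards [hl', hr'] with p h1 h2 using ⟨h1, h2⟩
    exact (measurePreserving_eval (fun _ : E => (ProbabilityTheory.cond F (Mix.side a true)).prod
        (ProbabilityTheory.cond F (Mix.side a false))) e).quasiMeasurePreserving.ae h1
  -- the pointwise inequality
  have hpt : ∀ v : E → ℝ × ℝ, (∀ e, (v e).1 ≤ a ∧ a < (v e).2) →
      (1 / 2) * ∑ lam : E → Bool, (if Mix.Tv lam v ∈ A then Wt w lam else 0) ≤
        Real.exp 10 * ∑ lam : E → Bool, (if Mix.Tv lam v ∈ B2 then Wt w lam else 0) +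
          Real.exp (-8) := by
    intro v hv
    let LS' : LoopSys E Bool ι true :=
      { c := fun g lam => LS.c g (Mix.Tv lam v)
        tube := LS.tube
        mono := by
          intro g lam lam' hll
          refine LS.mono g _ _ (fun e he => ?_)
          have hve := hv e
          rcases hll e he with h1 | h1
          · simp [Mix.Tv, h1]
          · cases h2 : lam' e
            · simp only [Mix.Tv, h1, h2, if_true, Bool.false_eq_true, if_false]
              linarith [hve.1, hve.2]
            · simp [Mix.Tv, h1, h2]
        G := fun lam => LS.G (Mix.Tv lam v)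
        ord := LS.ord
        ord_inj := LS.ord_inj
        G_min := fun lam g => LS.G_min _ g
        G_first := fun lam g hgc => LS.G_first _ g hgc }
    have hkey := fin_core_proof LS' w hw0 hw1 hwz δ hδ0 J Smax H hH1 hHS hJ hS
      (by simpa [hw, Mix.side] using hδ)
      ((Finset.univ : Finset (E → Bool)).filter (fun lam => Mix.Tv lam v ∈ A)) x g h hg hh
      (by
        intro lam hlam
        exact hAJ _ (Finset.mem_filter.1 hlam).2)
      (by
        intro lam hlam
        exact hAx _ (Finset.mem_filter.1 hlam).2)
      (by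
        intro lam hlam
        obtain ⟨D, hD1, hD2, hD3, hD4⟩ := hAD _ (Finset.mem_filter.1 hlam).2
        refine ⟨D, hD1, hD2, ?_⟩
        intro lam' hlam'
        have h5 := hD4 (Mix.Tv lam' v) (by
          intro e
          rcases hlam' e with h1 | ⟨h1, h2⟩
          · left
            simp [Mix.Tv, h1]
          · right
            refine ⟨h1, ?_, ?_⟩
            · simp only [Mix.Tv, h2, if_true]
              exact (hv e).1
            · simp only [Mix.Tv, h2, if_true]
              cases h3 : lam e
              · simp only [Bool.false_eq_true, if_false]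
                linarith [(hv e).1, (hv e).2]
              · simp only [if_true]
                exact le_refl _)
        have h6 : D.filter (fun e => Mix.Tv lam' v e ≤ a) = D.filter (fun e => lam' e = true) := by
          refine Finset.filter_congr (fun e _ => ?_)
          cases h3 : lam' e
          · simp only [Mix.Tv, h3, Bool.false_eq_true, if_false, iff_false, not_le]
            exact (hv e).2
          · simp only [Mix.Tv, h3, if_true, iff_true]
            exact (hv e).1
        rw [h6] at h5
        exact h5)
    rw [Finset.sum_filter, Finset.sum_filter] at hkey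
    exact hkey
  -- integrate
  rw [hint A hA, hint B2 hB2m]
  rw [← integral_const_mul, ← integral_const_mul]
  have hc : Real.exp (-8) = ∫ _ : E → ℝ × ℝ, Real.exp (-8) ∂ν := by
    rw [integral_const, probReal_univ, one_smul]
  conv_rhs => rw [hc]
  rw [← integral_add ((hintg B2 hB2m).const_mul _) (integrable_const _)]
  refine integral_mono_ae ((hintg A hA).const_mul _)
    (((hintg B2 hB2m).const_mul _).add (integrable_const _)) ?_
  filter_upwards [hgood] with v hv
  exact hpt v hv

end MIX

end Pool.Agent.Lib_helper9.FPP
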