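import Pool.Agent.Lib_helper9.FPP.Defs

/-! # Bernoulli bond percolation on `ℤ^d`: definitions (critical probability) -/

set_option autoImplicit false

open MeasureTheory ProbabilityTheory
open scoped BigOperators

namespace Pool.Agent.Lib_helper9.FPP

/-- Undirected edges of `ℤ^d`: `(v, i)` is the edge joining `v` and `v + e_i`. -/
abbrev ZEdge (d : ℕ) := (Fin d → ℤ) × Fin d

/-- The edge of `ℤ^d` traversed by the step `s` from `x`. -/
def zedgeOf {d : ℕ} (x : Fin d → ℤ) (s : Step d) : ZEdge d := (stepBase x s, s.1)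

/-- The edges of `ℤ^d` traversed by a walk. -/
def zwalkEdges {d : ℕ} (x : Fin d → ℤ) : List (Step d) → List (ZEdge d)
  | [] => []
  | s :: l => zedgeOf x s :: zwalkEdges (x + stepVec s) l

/-- `x` and `y` are joined by an open edge. -/
def OpenAdj {d : ℕ} (ω : ZEdge d → Bool) (x y : Fin d → ℤ) : Prop :=
  ∃ i : Fin d, (y = x + Pi.single i 1 ∧ ω (x, i) = true) ∨ (x = y + Pi.single i 1 ∧ ω (y, i) = true)

/-- The open cluster of `x`. -/
def openCluster {d : ℕ} (ω : ZEdge d → Bool) (x : Fin d → ℤ) : Set (Fin d → ℤ) :=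
  {y | Relation.ReflTransGen (OpenAdj ω) x y}

/-- Bernoulli law of parameter `p` on `Bool`. -/
noncomputable def bern (p : unitInterval) : Measure Bool :=
  ENNReal.ofReal (p : ℝ) • Measure.dirac true + ENNReal.ofReal (1 - (p : ℝ)) • Measure.dirac false

instance (p : unitInterval) : IsProbabilityMeasure (bern p) := by
  constructor
  have h0 : 0 ≤ (p : ℝ) := p.2.1
  have h1 : 0 ≤ 1 - (p : ℝ) := sub_nonneg.2 p.2.2
  simp only [bern, Measure.add_apply, Measure.smul_apply, measure_univ, smul_eq_mul, mul_one]
  rw [← ENNReal.ofReal_add h0 h1]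
  simp

/-- Bernoulli bond percolation of parameter `p` on `ℤ^d`. -/
noncomputable def percMeasure (d : ℕ) (p : unitInterval) : Measure (ZEdge d → Bool) :=
  Measure.infinitePi (fun _ : ZEdge d => bern p)

/-- The critical probability of bond percolation on `ℤ^d`: the supremum of the parameters `p` at
which almost surely the open cluster of the origin is finite. -/
noncomputable def pc (d : ℕ) : ℝ :=
  sSup {p : ℝ | ∃ h : p ∈ unitInterval, percMeasure d ⟨p, h⟩ {ω | (openCluster ω 0).Infinite} = 0}

/-- `x` and `y` are joined by an open path inside `S`. -/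
def ConnIn {d : ℕ} (S : Set (Fin d → ℤ)) (ω : ZEdge d → Bool) (x y : Fin d → ℤ) : Prop :=
  x ∈ S ∧ y ∈ S ∧ Relation.ReflTransGen (fun a b => a ∈ S ∧ b ∈ S ∧ OpenAdj ω a b) x y

/-- The quantity `φ_p(S)` of Duminil-Copin and Tassion: the expected number of open boundary edges
`{y, z}` of `S` with `0` connected to `y` inside `S` (the last edge being open with probability
`p`). -/
noncomputable def phi {d : ℕ} (p : unitInterval) (S : Finset (Fin d → ℤ)) : ℝ :=
  ∑ y ∈ S, ∑ s : Step d, if y + stepVec s ∈ S then 0 else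
    (p : ℝ) * (percMeasure d p).real {ω | ConnIn (S : Set (Fin d → ℤ)) ω 0 y}

/-- Number of closed edges of a walk (with multiplicity). -/
def closedCount {d : ℕ} (ω : ZEdge d → Bool) (x : Fin d → ℤ) (l : List (Step d)) : ℕ :=
  (zwalkEdges x l).countP (fun e => !ω e)

/-- Product weight of a finite Bernoulli configuration. -/
noncomputable def bw {E : Type*} [Fintype E] (q : ℝ) (ω : E → Bool) : ℝ :=
  ∏ e, (if ω e then q else 1 - q)

/-- Disjoint occurrence of two increasing events (finite index set). -/
def disjOcc {E : Type*} (A B : Set (E → Bool)) : Set (E → Bool) :=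
  {ω | ∃ K : E → Bool, (fun e => ω e && K e) ∈ A ∧ (fun e => ω e && !K e) ∈ B}

end Pool.Agent.Lib_helper9.FPP
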