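import Pool.Agent.Lib_helper9.FPP.ASM4

set_option autoImplicit false

open MeasureTheory ProbabilityTheory Filter

namespace Pool.Agent.Lib_helper9.FPP

/-- Choice of thresholds: if the atom at the infimum `r` of the support is less than `τ`, then there
are `a < b`, `0 < b`, with `F(-∞, a] > 0` and `F(-∞, b) < τ`. -/
lemma exists_thresholds (F : Measure ℝ) [IsProbabilityMeasure F] (hpos : F (Set.Iio 0) = 0)
    (r τ : ℝ) (hr0 : F (Set.Iio r) = 0) (hr : ∀ ε > 0, 0 < F (Set.Iio (r + ε)))
    (hatom : F.real {r} < τ) :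
    ∃ a b : ℝ, a < b ∧ 0 < b ∧ 0 < F (Set.Iic a) ∧ F.real (Set.Iio b) < τ := by
  have hr00 : 0 ≤ r := by
    by_contra h
    push Not at h
    have h1 := hr (-r) (by linarith)
    rw [add_neg_cancel] at h1
    exact h1.ne' hpos
  -- continuity from above at `r`
  have h1 : Tendsto (fun k : ℕ => F (Set.Iio (r + 1 / ((k : ℝ) + 1)))) atTop
      (nhds (F (⋂ k : ℕ, Set.Iio (r + 1 / ((k : ℝ) + 1))))) := by
    apply tendsto_measure_iInter_atTop
    · intro k; exact measurableSet_Iio.nullMeasurableSet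
    · intro k k' hkk'
      apply Set.Iio_subset_Iio
      gcongr
    · exact ⟨0, by finiteness⟩
  have h2 : (⋂ k : ℕ, Set.Iio (r + 1 / ((k : ℝ) + 1))) = Set.Iic r := by
    ext y
    simp only [Set.mem_iInter, Set.mem_Iio, Set.mem_Iic]
    constructor
    · intro h
      by_contra hy
      push Not at hy
      obtain ⟨k, hk⟩ := exists_nat_one_div_lt (sub_pos.2 hy)
      have := h k
      linarith
    · intro h k
      have : (0 : ℝ) < 1 / ((k : ℝ) + 1) := by positivity
      linarith
  rw [h2] at h1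
  have h3 : F (Set.Iic r) = F {r} := by
    rw [← Set.Iio_union_right, measure_union _ (measurableSet_singleton r), hr0, zero_add]
    simp
  rw [h3] at h1
  have hτ : F {r} < ENNReal.ofReal τ := by
    rw [measureReal_def] at hatom
    exact (ENNReal.lt_ofReal_iff_toReal_lt (by finiteness)).2 hatom
  obtain ⟨k, hk⟩ := (h1.eventually_lt_const hτ).exists
  set ε : ℝ := 1 / ((k : ℝ) + 1) with hε
  have hεpos : 0 < ε := by positivity
  refine ⟨r + ε / 2, r + ε, by linarith, by linarith, ?_, ?_⟩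
  · exact (hr (ε / 2) (by linarith)).trans_le (measure_mono Set.Iio_subset_Iic_self)
  · rw [measureReal_def]
    exact (ENNReal.lt_ofReal_iff_toReal_lt (by finiteness)).1 hk

/-- V1. -/
theorem v1 (F : Measure ℝ) [IsProbabilityMeasure F] (hpos : F (Set.Iio 0) = 0)
    (h2 : Integrable (fun y : ℝ => y ^ 2) F)
    (r : ℝ) (hr0 : F (Set.Iio r) = 0) (hr : ∀ ε > 0, 0 < F (Set.Iio (r + ε)))
    (hatom : F.real {r} < 1 / 3) :
    Tendsto (fun n : ℕ => variance (loopTime 2 (n + 1)) (Measure.pi (fun _ : TEdge 2 (n + 1) => F)))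
      atTop atTop := by
  obtain ⟨a, b, hab, hb, ha, hq⟩ := exists_thresholds F hpos r (1 / 3) hr0 hr hatom
  obtain ⟨c, hc, -, hbad⟩ := heavy_of_third F b hq
  exact var_tendsto_of_heavy F hpos h2 a b c hab ha hb hc hbad

end Pool.Agent.Lib_helper9.FPP

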