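import Pool.Agent.Lib_helper9.FPP.V1
import Pool.Agent.Lib_helper74.FPP.DCT
import Pool.Agent.Lib_helper21.FPP.CHAIN
import Pool.Agent.Lib_helper11.FPP.HV2

set_option autoImplicit false

open MeasureTheory ProbabilityTheory Filter

namespace Pool.Agent.Lib_helper9.FPP

/-- The heavy-edge property below the critical probability. -/
theorem heavy_of_pc' (F : Measure ℝ) [IsProbabilityMeasure F] (b : ℝ)
    (hq : F.real (Set.Iio b) < pc 2) :
    ∃ c : ℝ, 0 < c ∧ c ≤ 1 ∧
      Filter.Tendsto (fun n : ℕ => (Measure.pi (fun _ : TEdge 2 (n + 1) => F)) (Bad (n + 1) b c))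
        Filter.atTop (nhds 0) :=
  heavy_of_pc_of (fun p hp => exists_phi_lt_one_proof 2 p hp)
    (fun p S h0 h => chain_proof 2 p S h0 h) F b hq

/-- V2. -/
theorem v2 (F : Measure ℝ) [IsProbabilityMeasure F] (hpos : F (Set.Iio 0) = 0)
    (h2 : Integrable (fun y : ℝ => y ^ 2) F)
    (r : ℝ) (hr0 : F (Set.Iio r) = 0) (hr : ∀ ε > 0, 0 < F (Set.Iio (r + ε)))
    (hatom : F.real {r} < pc 2) :
    Tendsto (fun n : ℕ => variance (loopTime 2 (n + 1)) (Measure.pi (fun _ : TEdge 2 (n + 1) => F)))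
      atTop atTop := by
  obtain ⟨a, b, hab, hb, ha, hq⟩ := exists_thresholds F hpos r (pc 2) hr0 hr hatom
  obtain ⟨c, hc, -, hbad⟩ := heavy_of_pc' F b hq
  exact var_tendsto_of_heavy F hpos h2 a b c hab ha hb hc hbad

end Pool.Agent.Lib_helper9.FPP

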